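import Pool.Agent.Work.MP_0fc146_gt_h31.Interface

/-!
# Block Loc: the developing map is a local homeomorphism away from the cone points
-/

noncomputable section

open scoped Topology
open Filter

namespace Pool.Agent.CircleShift

namespace LocAux

/-! ### Affine coordinates -/

/-- Coordinates with respect to the basis `w₁, w₂`. -/
def co (w₁ w₂ z : ℂ) : ℝ × ℝ := (cross z w₂ / cross w₁ w₂, cross w₁ z / cross w₁ w₂)

theorem co_spec {w₁ w₂ : ℂ} (h : cross w₁ w₂ ≠ 0) (z : ℂ) :
    ((co w₁ w₂ z).1 : ℂ) * w₁ + ((co w₁ w₂ z).2 : ℂ) * w₂ = z := by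
  apply Complex.ext
  · simp only [co, Complex.add_re, Complex.mul_re, Complex.ofReal_re, Complex.ofReal_im, zero_mul,
      sub_zero]
    rw [div_mul_eq_mul_div, div_mul_eq_mul_div, ← add_div, div_eq_iff h]
    unfold cross; ring
  · simp only [co, Complex.add_im, Complex.mul_im, Complex.ofReal_re, Complex.ofReal_im, zero_mul,
      add_zero]
    rw [div_mul_eq_mul_div, div_mul_eq_mul_div, ← add_div, div_eq_iff h]
    unfold cross; ring

theorem co_comb {w₁ w₂ : ℂ} (h : cross w₁ w₂ ≠ 0) (a b : ℝ) :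
    co w₁ w₂ ((a : ℂ) * w₁ + (b : ℂ) * w₂) = (a, b) := by
  apply Prod.ext
  · simp only [co]
    rw [div_eq_iff h]
    simp only [cross, Complex.add_re, Complex.mul_re, Complex.ofReal_re, Complex.ofReal_im, zero_mul,
      sub_zero, Complex.add_im, Complex.mul_im, add_zero]
    ring
  · simp only [co]
    rw [div_eq_iff h]
    simp only [cross, Complex.add_re, Complex.mul_re, Complex.ofReal_re, Complex.ofReal_im, zero_mul,
      sub_zero, Complex.add_im, Complex.mul_im, add_zero]
    ring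

theorem continuous_cross {X : Type*} [TopologicalSpace X] {f g : X → ℂ} (hf : Continuous f)
    (hg : Continuous g) : Continuous (fun x => cross (f x) (g x)) := by
  unfold cross
  exact ((Complex.continuous_re.comp hf).mul (Complex.continuous_im.comp hg)).sub
    ((Complex.continuous_im.comp hf).mul (Complex.continuous_re.comp hg))

theorem continuous_co (w₁ w₂ : ℂ) : Continuous (co w₁ w₂) :=
  ((continuous_cross continuous_id continuous_const).div_const _).prodMk
    ((continuous_cross continuous_const continuous_id).div_const _)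

/-! ### Charts from maps and sections -/

theorem chart_of {U : Type} [TopologicalSpace U] {f : U → ℂ} {s : ℂ → U} {N : Set U} {V : Set ℂ}
    (hN : IsOpen N) (hV : IsOpen V) (hf : ContinuousOn f N) (hs : ContinuousOn s V) {u : U}
    (hu : u ∈ N) (huV : f u ∈ V) (h1 : ∀ v ∈ N, f v ∈ V → s (f v) = v) (h2 : ∀ y ∈ V, f (s y) = y) :
    ∃ e : OpenPartialHomeomorph U ℂ, u ∈ e.source ∧ e.source ⊆ N ∧ ∀ y, e y = f y := by
  refine ⟨{ toFun := f
            invFun := s
            source := N ∩ f ⁻¹' V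
            target := V ∩ s ⁻¹' N
            map_source' := fun v hv => ⟨hv.2, ?_⟩
            map_target' := fun y hy => ⟨hy.2, ?_⟩
            left_inv' := fun v hv => h1 v hv.1 hv.2
            right_inv' := fun y hy => h2 y hy.1
            open_source := hf.isOpen_inter_preimage hN hV
            open_target := hs.isOpen_inter_preimage hV hN
            continuousOn_toFun := hf.mono Set.inter_subset_left
            continuousOn_invFun := hs.mono Set.inter_subset_left }, ⟨hu, huV⟩,
          Set.inter_subset_left, fun _ => rfl⟩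
  · change s (f v) ∈ N
    rw [h1 v hv.1 hv.2]; exact hv.1
  · change f (s y) ∈ V
    rw [h2 y hy.1]; exact hy.1

section tree

variable {U : Type} [TopologicalSpace U] [MulAction G U] {pt : G → Fin 8 → ℝ × ℝ → U}

theorem isClosed_tri (hT : OctTree U pt) (h : G) (k : Fin 8) : IsClosed (pt h k '' Tset) := by
  have := (hT.emb h k).isClosed_range
  have h2 : Set.range (fun d : Tset => pt h k d) = pt h k '' Tset := by
    ext x; simp
  rwa [h2] at this

theorem continuousOn_pt (hT : OctTree U pt) (h : G) (k : Fin 8) : ContinuousOn (pt h k) Tset :=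
  continuousOn_iff_continuous_domRestrict.2 (hT.emb h k).continuous

/-- A neighbourhood which meets only the triangles through `u`. -/
theorem star (hT : OctTree U pt) (u : U) : ∃ N : Set U, IsOpen N ∧ u ∈ N ∧
    ∀ v ∈ N, ∀ h k, v ∈ pt h k '' Tset → u ∈ pt h k '' Tset := by
  have h1 := hT.lf.iInter_compl_mem_nhds (fun x => isClosed_tri hT x.1 x.2) u
  obtain ⟨N, hN, hNo, huN⟩ := mem_nhds_iff.1 h1
  refine ⟨N, hNo, huN, fun v hv h k hvT => ?_⟩
  by_contra hu
  have h2 := hN hv
  simp only [Set.mem_iInter] at h2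
  exact h2 (h, k) hu hvT

theorem Tl_ne_one (k : Fin 8) : Tl k ≠ 1 := by
  intro h
  have h2 := congrArg FreeGroup.toWord h
  fin_cases k <;> simp [Tl, ostri] at h2

theorem Tl_add_four (k : Fin 8) : Tl (k + 4) = (Tl k)⁻¹ := by
  fin_cases k <;> simp [Tl, ostri, FreeGroup.invRev]

/-- The inverse affine map of the triangle `(h, k)`. -/
def aff (W : OctData) (h : G) (k : Fin 8) (y : ℂ) : ℝ × ℝ := co (W.w k) (W.w (k + 1)) (y - W.tau h)

theorem continuous_aff (W : OctData) (h : G) (k : Fin 8) : Continuous (aff W h k) :=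
  (continuous_co _ _).comp (continuous_id.sub continuous_const)

theorem aff_spec (W : OctData) (h : G) (k : Fin 8) (y : ℂ) :
    W.tau h + (aff W h k y).1 * W.w k + (aff W h k y).2 * W.w (k + 1) = y := by
  have := co_spec (W.area k).ne' (y - W.tau h)
  unfold aff
  linear_combination this

theorem aff_comb (W : OctData) (h : G) (k : Fin 8) (a b : ℝ) :
    aff W h k (W.tau h + a * W.w k + b * W.w (k + 1)) = (a, b) := by
  have := co_comb (W.area k).ne' a b
  unfold aff
  rw [← this]
  congr 1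
  ring

omit [TopologicalSpace U] [MulAction G U] in
theorem D_aff {W : OctData} {D : U → ℂ} (hD : IsDev pt W D) (h : G) (k : Fin 8) {y : ℂ}
    (hy : aff W h k y ∈ Tset) : D (pt h k (aff W h k y)) = y := by
  rw [hD h k _ hy, aff_spec]

omit [TopologicalSpace U] [MulAction G U] in
theorem aff_D {W : OctData} {D : U → ℂ} (hD : IsDev pt W D) (h : G) (k : Fin 8) {d : ℝ × ℝ}
    (hd : d ∈ Tset) : aff W h k (D (pt h k d)) = d := by
  rw [hD h k d hd, aff_comb]

/-- The case of a point which is in one triangle only. -/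
theorem loc_one (hT : OctTree U pt) {W : OctData} {D : U → ℂ} (hDc : Continuous D)
    (hD : IsDev pt W D) {u : U} {h : G} {k : Fin 8} {V : Set ℂ} (hV : IsOpen V) (huV : D u ∈ V)
    (ha : ∀ y ∈ V, aff W h k y ∈ Tset)
    (hf : ∀ h' k', u ∈ pt h' k' '' Tset → h' = h ∧ k' = k) :
    ∃ e : OpenPartialHomeomorph U ℂ, u ∈ e.source ∧ ∀ y ∈ e.source, e y = D y := by
  obtain ⟨N, hN, huN, hstar⟩ := star hT u
  obtain ⟨e, he, -, heD⟩ := chart_of (f := D) (s := fun y => pt h k (aff W h k y)) hN hV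
    hDc.continuousOn ((continuousOn_pt hT h k).comp (continuous_aff W h k).continuousOn ha) huN huV
    (by
      intro v hv hvV
      obtain ⟨h', k', d, hd, rfl⟩ := hT.surj v
      obtain ⟨rfl, rfl⟩ := hf h' k' (hstar _ hv h' k' ⟨d, hd, rfl⟩)
      rw [aff_D hD h' k' hd])
    (fun y hy => D_aff hD h k (ha y hy))
  exact ⟨e, he, fun y _ => heD y⟩

/-- The case of a point which is in two triangles. -/
theorem loc_two (hT : OctTree U pt) {W : OctData} {D : U → ℂ} (hDc : Continuous D)
    (hD : IsDev pt W D) {u : U} {h₁ h₂ : G} {k₁ k₂ : Fin 8} {V : Set ℂ} {L : ℂ → ℝ}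
    (hL : Continuous L) (hV : IsOpen V) (huV : D u ∈ V)
    (ha : ∀ y ∈ V, L y ≤ 0 → aff W h₁ k₁ y ∈ Tset)
    (hb : ∀ y ∈ V, 0 ≤ L y → aff W h₂ k₂ y ∈ Tset)
    (hc : ∀ y ∈ V, L y = 0 → pt h₁ k₁ (aff W h₁ k₁ y) = pt h₂ k₂ (aff W h₂ k₂ y))
    (hd : ∀ d ∈ Tset, L (D (pt h₁ k₁ d)) ≤ 0)
    (he : ∀ d ∈ Tset, 0 ≤ L (D (pt h₂ k₂ d)))
    (hf : ∀ h' k', u ∈ pt h' k' '' Tset → (h' = h₁ ∧ k' = k₁) ∨ (h' = h₂ ∧ k' = k₂)) :
    ∃ e : OpenPartialHomeomorph U ℂ, u ∈ e.source ∧ ∀ y ∈ e.source, e y = D y := by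
  classical
  obtain ⟨N, hN, huN, hstar⟩ := star hT u
  set s : ℂ → U := fun y => if L y ≤ 0 then pt h₁ k₁ (aff W h₁ k₁ y) else pt h₂ k₂ (aff W h₂ k₂ y)
    with hs
  have hs2 : ∀ y ∈ V, 0 ≤ L y → s y = pt h₂ k₂ (aff W h₂ k₂ y) := by
    intro y hy h0
    simp only [hs]
    split_ifs with h1
    · exact hc y hy (le_antisymm h1 h0)
    · rfl
  have hcl : IsClosed {y | L y ≤ 0} := isClosed_le hL continuous_const
  have hsc : ContinuousOn s V := by
    apply ContinuousOn.if
    · rintro y ⟨hy, hy2⟩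
      apply hc y hy
      have := frontier_le_subset_eq hL continuous_const hy2
      exact this
    · refine (continuousOn_pt hT h₁ k₁).comp (continuous_aff W h₁ k₁).continuousOn ?_
      rintro y ⟨hy, hy2⟩
      rw [hcl.closure_eq] at hy2
      exact ha y hy hy2
    · refine (continuousOn_pt hT h₂ k₂).comp (continuous_aff W h₂ k₂).continuousOn ?_
      rintro y ⟨hy, hy2⟩
      apply hb y hy
      have h3 : {y | ¬ L y ≤ 0} ⊆ {y | 0 ≤ L y} := fun z hz => by
        simp only [Set.mem_ofPred_eq, not_le] at hz ⊢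
        exact hz.le
      exact closure_minimal h3 (isClosed_le continuous_const hL) hy2
  obtain ⟨e, he, -, heD⟩ := chart_of (f := D) (s := s) hN hV hDc.continuousOn hsc huN huV
    (by
      intro v hv hvV
      obtain ⟨h', k', d, hd', rfl⟩ := hT.surj v
      rcases hf h' k' (hstar _ hv h' k' ⟨d, hd', rfl⟩) with ⟨rfl, rfl⟩ | ⟨rfl, rfl⟩
      · have h1 := hd d hd'
        simp only [hs, if_pos h1]
        rw [aff_D hD h' k' hd']
      · rw [hs2 _ hvV (he d hd'), aff_D hD h' k' hd'])
    (by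
      intro y hy
      rcases le_total (L y) 0 with h0 | h0
      · simp only [hs, if_pos h0]
        exact D_aff hD h₁ k₁ (ha y hy h0)
      · rw [hs2 y hy h0]
        exact D_aff hD h₂ k₂ (hb y hy h0))
  exact ⟨e, he, fun y _ => heD y⟩

/-- Interior points. -/
theorem loc_int (hT : OctTree U pt) {W : OctData} {D : U → ℂ} (hDc : Continuous D)
    (hD : IsDev pt W D) (h : G) (k : Fin 8) {d : ℝ × ℝ} (h1 : 0 < d.1) (h2 : 0 < d.2)
    (h3 : d.1 + d.2 < 1) :
    ∃ e : OpenPartialHomeomorph U ℂ, pt h k d ∈ e.source ∧ ∀ y ∈ e.source, e y = D y := by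
  have hdT : d ∈ Tset := ⟨h1.le, h2.le, h3.le, by linarith, by linarith⟩
  refine loc_one hT hDc hD (h := h) (k := k)
    (V := {y | 0 < (aff W h k y).1 ∧ 0 < (aff W h k y).2 ∧ (aff W h k y).1 + (aff W h k y).2 < 1})
    ?_ ?_ ?_ ?_
  · have c := continuous_aff W h k
    exact (isOpen_lt continuous_const (continuous_fst.comp c)).inter
      ((isOpen_lt continuous_const (continuous_snd.comp c)).inter
        (isOpen_lt ((continuous_fst.comp c).add (continuous_snd.comp c)) continuous_const))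
  · change 0 < (aff W h k (D (pt h k d))).1 ∧ 0 < (aff W h k (D (pt h k d))).2 ∧
      (aff W h k (D (pt h k d))).1 + (aff W h k (D (pt h k d))).2 < 1
    rw [aff_D hD h k hdT]
    exact ⟨h1, h2, h3⟩
  · rintro y ⟨a1, a2, a3⟩
    exact ⟨a1.le, a2.le, a3.le, by linarith, by linarith⟩
  · rintro h' k' ⟨d', hd', he⟩
    rcases hT.inj h k d h' k' d' hdT hd' he.symm with ⟨e1, e2, -⟩ | ⟨-, e2, -⟩ | ⟨-, -, e2, -⟩ |
      ⟨-, -, -, e2⟩ | ⟨-, -, e2, -⟩
    · exact ⟨e1.symm, e2.symm⟩
    · rw [e2] at h1; exact absurd h1 (lt_irrefl _)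
    · exact absurd e2 h1.ne'
    · rw [e2] at h2; exact absurd h2 (lt_irrefl _)
    · exact absurd e2 h3.ne

/-- Points of the spokes. -/
theorem loc_spoke (hT : OctTree U pt) {W : OctData} {D : U → ℂ} (hDc : Continuous D)
    (hD : IsDev pt W D) (h : G) (k : Fin 8) {b : ℝ} (h1 : 0 < b) (h2 : b < 1) :
    ∃ e : OpenPartialHomeomorph U ℂ, pt h k (0, b) ∈ e.source ∧ ∀ y ∈ e.source, e y = D y := by
  have hdT : ((0, b) : ℝ × ℝ) ∈ Tset := ⟨le_rfl, h1.le, by simpa using h2.le, by simp, h2.ne⟩
  have hdT' : ((b, 0) : ℝ × ℝ) ∈ Tset := ⟨h1.le, le_rfl, by simpa using h2.le, h2.ne, by simp⟩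
  have hsp : pt h (k + 1) (b, 0) = pt h k (0, b) := hT.spoke h k b h1.le h2
  have c1 := continuous_aff W h k
  have c2 := continuous_aff W h (k + 1)
  -- on the line of the spoke
  have key : ∀ y, cross (W.w (k + 1)) (y - W.tau h) = 0 →
      ∃ β : ℝ, aff W h k y = (0, β) ∧ aff W h (k + 1) y = (β, 0) := by
    intro y hy
    refine ⟨(aff W h k y).2, ?_, ?_⟩
    · apply Prod.ext
      · simp only [aff, co]
        have : cross (y - W.tau h) (W.w (k + 1)) = 0 := by
          unfold cross at hy ⊢; linarith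
        rw [this, zero_div]
      · rfl
    · have h3 := aff_spec W h k y
      have h4 : (aff W h k y).1 = 0 := by
        simp only [aff, co]
        have : cross (y - W.tau h) (W.w (k + 1)) = 0 := by
          unfold cross at hy ⊢; linarith
        rw [this, zero_div]
      have h5 := aff_comb W h (k + 1) (aff W h k y).2 0
      rw [h4] at h3
      have h6 : W.tau h + ((aff W h k y).2 : ℂ) * W.w (k + 1) + ((0 : ℝ) : ℂ) * W.w (k + 1 + 1) = y := by
        push_cast at h3 ⊢
        linear_combination h3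
      rw [h6] at h5
      exact h5
  refine loc_two hT hDc hD (h₁ := h) (h₂ := h) (k₁ := k) (k₂ := k + 1)
    (L := fun y => cross (W.w (k + 1)) (y - W.tau h))
    (V := {y | (0 < (aff W h k y).2 ∧ (aff W h k y).1 + (aff W h k y).2 < 1) ∧
      (0 < (aff W h (k + 1) y).1 ∧ (aff W h (k + 1) y).1 + (aff W h (k + 1) y).2 < 1)})
    (continuous_cross continuous_const (continuous_id.sub continuous_const)) ?_ ?_ ?_ ?_ ?_ ?_ ?_ ?_
  · exact ((isOpen_lt continuous_const (continuous_snd.comp c1)).inter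
      (isOpen_lt ((continuous_fst.comp c1).add (continuous_snd.comp c1)) continuous_const)).inter
      ((isOpen_lt continuous_const (continuous_fst.comp c2)).inter
      (isOpen_lt ((continuous_fst.comp c2).add (continuous_snd.comp c2)) continuous_const))
  · constructor
    · rw [aff_D hD h k hdT]
      exact ⟨h1, by simpa using h2⟩
    · rw [← hsp, aff_D hD h (k + 1) hdT']
      exact ⟨h1, by simpa using h2⟩
  · rintro y ⟨⟨a1, a2⟩, -⟩ hL
    have a3 : 0 ≤ (aff W h k y).1 := by
      simp only [aff, co]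
      apply div_nonneg _ (W.area k).le
      simp only [cross] at hL ⊢
      linarith
    exact ⟨a3, a1.le, a2.le, by linarith, by linarith⟩
  · rintro y ⟨-, ⟨a1, a2⟩⟩ hL
    have a3 : 0 ≤ (aff W h (k + 1) y).2 := by
      simp only [aff, co]
      exact div_nonneg hL (W.area (k + 1)).le
    exact ⟨a1.le, a3, a2.le, by linarith, by linarith⟩
  · rintro y ⟨⟨a1, a2⟩, -⟩ hL
    obtain ⟨β, e1, e2⟩ := key y hL
    rw [e1] at a1 a2 ⊢
    rw [e2]
    exact (hT.spoke h k β a1.le (by simpa using a2)).symm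
  · intro d hd
    rw [hD h k d hd]
    have h3 := W.area k
    have h4 := hd.1
    have h5 : cross (W.w (k + 1)) (W.tau h + d.1 * W.w k + d.2 * W.w (k + 1) - W.tau h) =
        -(d.1 * cross (W.w k) (W.w (k + 1))) := by
      simp only [cross, Complex.add_re, Complex.mul_re, Complex.ofReal_re, Complex.ofReal_im,
        zero_mul, sub_zero, Complex.add_im, Complex.mul_im, add_zero, Complex.sub_re,
        Complex.sub_im]
      ring
    rw [h5]
    have := mul_nonneg h4 h3.le
    linarith
  · intro d hd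
    rw [hD h (k + 1) d hd]
    have h3 := W.area (k + 1)
    have h4 := hd.2.1
    have h5 : cross (W.w (k + 1)) (W.tau h + d.1 * W.w (k + 1) + d.2 * W.w (k + 1 + 1) - W.tau h) =
        d.2 * cross (W.w (k + 1)) (W.w (k + 1 + 1)) := by
      simp only [cross, Complex.add_re, Complex.mul_re, Complex.ofReal_re, Complex.ofReal_im,
        zero_mul, sub_zero, Complex.add_im, Complex.mul_im, add_zero, Complex.sub_re,
        Complex.sub_im]
      ring
    rw [h5]
    exact mul_nonneg h4 h3.le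
  · rintro h' k' ⟨d', hd', he⟩
    rcases hT.inj h k (0, b) h' k' d' hdT hd' he.symm with ⟨e1, e2, -⟩ | ⟨-, e2, -⟩ |
      ⟨e1, e2, -, -⟩ | ⟨-, -, -, e2⟩ | ⟨-, -, e2, -⟩
    · exact Or.inl ⟨e1.symm, e2.symm⟩
    · rw [Prod.mk.injEq] at e2; exact absurd e2.2 h1.ne'
    · exact Or.inr ⟨e1.symm, e2⟩
    · rw [Prod.mk.injEq] at e2; exact absurd e2.2 h1.ne'
    · simp only [zero_add] at e2; exact absurd e2 h2.ne

/-- Points of the sides. -/
theorem loc_side (hT : OctTree U pt) {W : OctData} {D : U → ℂ} (hDc : Continuous D)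
    (hD : IsDev pt W D) (h : G) (k : Fin 8) {b c : ℝ} (h1 : 0 < b) (h2 : 0 < c) (h3 : b + c = 1) :
    ∃ e : OpenPartialHomeomorph U ℂ, pt h k (b, c) ∈ e.source ∧ ∀ y ∈ e.source, e y = D y := by
  have hdT : ((b, c) : ℝ × ℝ) ∈ Tset :=
    ⟨h1.le, h2.le, h3.le, by simp only; intro h; linarith, by simp only; intro h; linarith⟩
  have hdT' : ((c, b) : ℝ × ℝ) ∈ Tset :=
    ⟨h2.le, h1.le, by simp only; linarith, by simp only; intro h; linarith,
      by simp only; intro h; linarith⟩
  obtain rfl : c = 1 - b := by linarith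
  have hsp : pt h k (b, 1 - b) = pt (h * Tl k) (k + 4) (1 - b, b) :=
    hT.side h k b h1 (by linarith)
  have c1 := continuous_aff W h k
  have c2 := continuous_aff W (h * Tl k) (k + 4)
  have k45 : k + 4 + 1 = k + 5 := by rw [add_assoc]; rfl
  have k48 : k + 4 + 5 = k + 1 := by rw [add_assoc]; rfl
  have tau_one : W.tau 1 = 0 := by
    have := W.tau_mul 1 1
    rw [mul_one] at this
    simpa using this
  have tau_inv : ∀ g, W.tau g⁻¹ = - W.tau g := by
    intro g
    have := W.tau_mul g g⁻¹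
    rw [mul_inv_cancel, tau_one] at this
    linear_combination -this
  have g1 : W.w (k + 5) = W.w k - W.tau (Tl k) := by linear_combination -(W.glue k)
  have g2 : W.w (k + 4) = W.w (k + 1) - W.tau (Tl k) := by
    have := W.glue (k + 4)
    rw [k48, Tl_add_four, tau_inv] at this
    rw [this]; ring
  have hA := W.area k
  have hA4 := W.area (k + 4)
  rw [k45, g1, g2] at hA4
  -- the coordinate sum of the translation is larger than one
  set t := W.tau (Tl k) with ht
  set σ : ℂ → ℝ := fun z => (cross z (W.w (k + 1)) + cross (W.w k) z) / cross (W.w k) (W.w (k + 1))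
    with hσ
  have hσt : 1 < σ t := by
    simp only [hσ]
    rw [lt_div_iff₀ hA]
    simp only [cross, Complex.sub_re, Complex.sub_im] at hA4 ⊢
    linarith
  have hσaff : ∀ y, (aff W h k y).1 + (aff W h k y).2 = σ (y - W.tau h) := by
    intro y
    simp only [aff, co, hσ]
    rw [add_div]
  have hσc : ∀ y, σ (y - W.tau h) - 1 =
      (1 - ((aff W (h * Tl k) (k + 4) y).1 + (aff W (h * Tl k) (k + 4) y).2)) * (σ t - 1) := by
    intro y
    have h5 := aff_spec W (h * Tl k) (k + 4) y
    rw [W.tau_mul, k45, g1, g2, ← ht] at h5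
    set p := (aff W (h * Tl k) (k + 4) y).1
    set q := (aff W (h * Tl k) (k + 4) y).2
    have h6 : y - W.tau h = ((1 - (p + q) : ℝ) : ℂ) * t + (p : ℂ) * W.w (k + 1) + (q : ℂ) * W.w k := by
      rw [← h5]; push_cast; ring
    rw [h6]
    simp only [hσ]
    rw [div_sub_one hA.ne', div_sub_one hA.ne', mul_div_assoc', div_left_inj' hA.ne']
    simp only [cross, Complex.add_re, Complex.mul_re, Complex.ofReal_re, Complex.ofReal_im,
      zero_mul, sub_zero, Complex.add_im, Complex.mul_im, add_zero]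
    ring
  refine loc_two hT hDc hD (h₁ := h) (h₂ := h * Tl k) (k₁ := k) (k₂ := k + 4)
    (L := fun y => σ (y - W.tau h) - 1)
    (V := {y | (0 < (aff W h k y).1 ∧ 0 < (aff W h k y).2) ∧
      (0 < (aff W (h * Tl k) (k + 4) y).1 ∧ 0 < (aff W (h * Tl k) (k + 4) y).2)})
    ?_ ?_ ?_ ?_ ?_ ?_ ?_ ?_ ?_
  · have h5 : (fun y => σ (y - W.tau h) - 1) =
        fun y => (aff W h k y).1 + (aff W h k y).2 - 1 := by
      funext y; rw [hσaff]
    rw [h5]
    exact ((continuous_fst.comp c1).add (continuous_snd.comp c1)).sub continuous_const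
  · exact ((isOpen_lt continuous_const (continuous_fst.comp c1)).inter
      (isOpen_lt continuous_const (continuous_snd.comp c1))).inter
      ((isOpen_lt continuous_const (continuous_fst.comp c2)).inter
      (isOpen_lt continuous_const (continuous_snd.comp c2)))
  · constructor
    · rw [aff_D hD h k hdT]
      exact ⟨h1, h2⟩
    · rw [hsp, aff_D hD (h * Tl k) (k + 4) hdT']
      exact ⟨h2, h1⟩
  · rintro y ⟨⟨a1, a2⟩, -⟩ hL
    rw [← hσaff] at hL
    exact ⟨a1.le, a2.le, by linarith, by linarith, by linarith⟩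
  · rintro y ⟨-, ⟨a1, a2⟩⟩ hL
    rw [hσc] at hL
    have h6 : 0 ≤ 1 - ((aff W (h * Tl k) (k + 4) y).1 + (aff W (h * Tl k) (k + 4) y).2) := by
      by_contra h7
      push Not at h7
      have : 0 < σ t - 1 := by linarith
      have := mul_neg_of_neg_of_pos h7 this
      linarith
    exact ⟨a1.le, a2.le, by linarith, by linarith, by linarith⟩
  · rintro y ⟨⟨a1, a2⟩, ⟨a3, a4⟩⟩ hL
    have hL2 := hL
    rw [← hσaff] at hL
    rw [hσc] at hL2
    have h6 : 1 - ((aff W (h * Tl k) (k + 4) y).1 + (aff W (h * Tl k) (k + 4) y).2) = 0 := by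
      rcases mul_eq_zero.1 hL2 with h7 | h7
      · exact h7
      · linarith
    have h5 := aff_spec W (h * Tl k) (k + 4) y
    rw [W.tau_mul, k45, g1, g2, ← ht] at h5
    set p := (aff W (h * Tl k) (k + 4) y).1 with hp
    set q := (aff W (h * Tl k) (k + 4) y).2 with hq
    have hpq : p = 1 - q := by linarith
    have h7 : y = W.tau h + (q : ℂ) * W.w k + (p : ℂ) * W.w (k + 1) := by
      rw [← h5, hpq]; push_cast; ring
    have h8 := aff_comb W h k q p
    rw [← h7] at h8
    rw [h8, hpq, hT.side h k q a4 (by linarith)]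
    congr 1
    apply Prod.ext
    · simp only; rw [← hpq]
    · rfl
  · intro d hd
    rw [← hσaff, aff_D hD h k hd]
    have := hd.2.2.1
    linarith
  · intro d hd
    rw [hσc, aff_D hD (h * Tl k) (k + 4) hd]
    have := hd.2.2.1
    apply mul_nonneg <;> linarith
  · rintro h' k' ⟨d', hd', he⟩
    rcases hT.inj h k (b, 1 - b) h' k' d' hdT hd' he.symm with ⟨e1, e2, -⟩ | ⟨-, e2, -⟩ |
      ⟨-, -, e2, -⟩ | ⟨-, -, -, e2⟩ | ⟨e1, e2, -, -⟩
    · exact Or.inl ⟨e1.symm, e2.symm⟩
    · rw [Prod.mk.injEq] at e2; exact absurd e2.1 h1.ne'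
    · exact absurd e2 h1.ne'
    · rw [Prod.mk.injEq] at e2; exact absurd e2.2 h2.ne'
    · exact Or.inr ⟨e1, e2⟩

end tree

end LocAux

open LocAux in
theorem stmt_Loc (hDC : Stmt_DevCont) : Stmt_Loc := by
  intro U _ _ _ pt hT W D hD u hu
  obtain ⟨hDc, -⟩ := hDC U pt hT W D hD
  obtain ⟨h, k, d, hd, rfl⟩ := hT.surj u
  obtain ⟨d1, d2⟩ := d
  obtain ⟨a1, a2, a3, a4, a5⟩ := hd
  simp only at a1 a2 a3 a4 a5
  rcases eq_or_lt_of_le a1 with e1 | e1
  · subst e1
    rcases eq_or_lt_of_le a2 with e2 | e2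
    · subst e2
      exact absurd (by rw [hT.smul, mul_one, hT.center h k 0]) (hu h)
    · exact loc_spoke hT hDc hD h k e2 (lt_of_le_of_ne (by simpa using a3) a5)
  · rcases eq_or_lt_of_le a2 with e2 | e2
    · subst e2
      have h1 : d1 < 1 := lt_of_le_of_ne (by simpa using a3) a4
      have h2 := hT.spoke h (k - 1) d1 a1 h1
      rw [sub_add_cancel] at h2
      rw [h2]
      exact loc_spoke hT hDc hD h (k - 1) e1 h1
    · rcases eq_or_lt_of_le a3 with e3 | e3
      · exact loc_side hT hDc hD h k e1 e2 e3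
      · exact loc_int hT hDc hD h k e1 e2 e3

end Pool.Agent.CircleShift
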