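import Pool.Agent.Work.MP_0fc146_gt_h31.Interface

/-!
# Block AG: from the developing maps to the Teichmuller ray
-/

noncomputable section

open scoped Topology ENNReal UpperHalfPlane Manifold ContDiff
open Filter

namespace Pool.Agent.CircleShift

namespace AGAux

/-- If `0` is a nearest lattice point of `P` then a lattice vector close to a short multiple of `P`
is short. -/
theorem short_of_near {P l : ℂ} {γ r : ℝ} (h0 : 0 ≤ γ) (h1 : γ ≤ 1) (hn : ‖P‖ ≤ ‖P - l‖)
    (he : ‖l - γ • P‖ ≤ r) : ‖l‖ ≤ 2 * r := by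
  by_contra hlt
  push Not at hlt
  have hr : 0 ≤ r := (norm_nonneg _).trans he
  have hl : 0 < ‖l‖ := by linarith
  have h2 : ‖P‖ ^ 2 ≤ ‖P - l‖ ^ 2 := by
    have := norm_nonneg P
    nlinarith
  rw [norm_sub_sq_real] at h2
  have h3 : inner ℝ l l = γ * inner ℝ P l + inner ℝ (l - γ • P) l := by
    rw [inner_sub_left, inner_smul_left]
    simp
  have h4 : inner ℝ (l - γ • P) l ≤ ‖l - γ • P‖ * ‖l‖ := real_inner_le_norm _ _
  have h5 : inner ℝ l l = ‖l‖ ^ 2 := real_inner_self_eq_norm_sq l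
  have h6 : ‖l - γ • P‖ * ‖l‖ ≤ r * ‖l‖ := mul_le_mul_of_nonneg_right he hl.le
  have h7 : γ * inner ℝ P l ≤ γ * (‖l‖ ^ 2 / 2) := mul_le_mul_of_nonneg_left (by linarith) h0
  have h8 : γ * (‖l‖ ^ 2 / 2) ≤ 1 * (‖l‖ ^ 2 / 2) := mul_le_mul_of_nonneg_right h1 (by positivity)
  nlinarith

/-- The neighbourhood of the segment from a point to a nearest lattice point contains no nonzero
lattice difference. -/
theorem diff_zero {Λ : G → ℂ} (mul : ∀ g h, Λ (g * h) = Λ g + Λ h)
    (hne : ∀ g, Λ g ≠ 0 → √2 ≤ ‖Λ g‖) {p : ℂ} {g₀ : G}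
    (hnear : ∀ g, ‖p - Λ g₀‖ ≤ ‖p - Λ g‖) {x y : ℂ}
    (hx : x ∈ Metric.thickening (1 / 4) (segment ℝ (Λ g₀) p))
    (hy : y ∈ Metric.thickening (1 / 4) (segment ℝ (Λ g₀) p)) (g : G) (hg : x - y = Λ g) :
    Λ g = 0 := by
  by_contra h0
  have hbig := hne g h0
  have h2 : (1.4 : ℝ) < √2 := by
    rw [Real.lt_sqrt (by norm_num)]; norm_num
  have one : Λ 1 = 0 := by
    have := mul 1 1
    rw [mul_one] at this
    simpa using this
  have inv : ∀ g, Λ g⁻¹ = - Λ g := by
    intro g
    have := mul g g⁻¹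
    rw [mul_inv_cancel, one] at this
    linear_combination -this
  rw [Metric.mem_thickening_iff] at hx hy
  obtain ⟨a, ha, hxa⟩ := hx
  obtain ⟨b, hb, hyb⟩ := hy
  rw [segment_eq_image'] at ha hb
  obtain ⟨α, hα, rfl⟩ := ha
  obtain ⟨β, hβ, rfl⟩ := hb
  rw [dist_eq_norm] at hxa hyb
  simp only at hxa hyb
  set P : ℂ := p - Λ g₀ with hP
  have e1 : ‖Λ g - (α - β) • P‖ ≤ 1 / 2 := by
    have h3 : Λ g - (α - β) • P = (x - (Λ g₀ + α • P)) - (y - (Λ g₀ + β • P)) := by
      rw [← hg, sub_smul]; ring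
    rw [h3]
    refine (norm_sub_le _ _).trans ?_
    linarith
  rcases le_total β α with hab | hab
  · have h4 := short_of_near (P := P) (l := Λ g) (γ := α - β) (r := 1 / 2) (by linarith)
      (by linarith [hα.2, hβ.1]) (by
        have := hnear (g₀ * g)
        rw [mul] at this
        have h5 : P - Λ g = p - (Λ g₀ + Λ g) := by rw [hP]; ring
        rw [h5]; exact this) e1
    linarith
  · have h4 := short_of_near (P := P) (l := -Λ g) (γ := β - α) (r := 1 / 2) (by linarith)
      (by linarith [hα.1, hβ.2]) (by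
        have := hnear (g₀ * g⁻¹)
        rw [mul, inv] at this
        have h5 : P - -Λ g = p - (Λ g₀ + -Λ g) := by rw [hP]; ring
        rw [h5]; exact this) (by
        have h6 : -Λ g - (β - α) • P = -(Λ g - (α - β) • P) := by
          simp only [sub_smul]; ring
        rw [h6, norm_neg]; exact e1)
    rw [norm_neg] at h4
    linarith

/-- Points of the Euclidean segment between two points of the upper half plane. -/
def segPt (p q : ℍ) (s : unitInterval) : ℍ :=
  ⟨AffineMap.lineMap (p : ℂ) (q : ℂ) (s : ℝ), by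
    rw [AffineMap.lineMap_apply_module]
    have h1 := p.im_pos
    have h2 := q.im_pos
    have h3 := s.2.1
    have h4 := s.2.2
    simp only [Complex.add_im, Complex.real_smul, Complex.mul_im, Complex.ofReal_re,
      Complex.ofReal_im, zero_mul, add_zero]
    change 0 < (1 - (s : ℝ)) * p.im + (s : ℝ) * q.im
    rcases eq_or_lt_of_le h3 with h | h
    · rw [← h]; simpa using h1
    · have : 0 < (s : ℝ) * q.im := mul_pos h h2
      have : 0 ≤ (1 - (s : ℝ)) * p.im := mul_nonneg (by linarith) h1.le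
      linarith⟩

theorem continuous_segPt (p q : ℍ) : Continuous (segPt p q) := by
  rw [UpperHalfPlane.isEmbedding_coe.continuous_iff]
  change Continuous (fun s : unitInterval => AffineMap.lineMap (p : ℂ) (q : ℂ) (s : ℝ))
  simp only [AffineMap.lineMap_apply_module]
  fun_prop

theorem segPt_zero (p q : ℍ) : segPt p q 0 = p := by
  apply UpperHalfPlane.ext
  simp [segPt]

theorem segPt_one (p q : ℍ) : segPt p q 1 = q := by
  apply UpperHalfPlane.ext
  simp [segPt]

/-- The path in `U`. -/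
def segPath {U : Type} [TopologicalSpace U] {f : ℍ → U} (hf : Continuous f) (p q : ℍ) :
    Path (f p) (f q) where
  toFun s := f (segPt p q s)
  continuous_toFun := hf.comp (continuous_segPt p q)
  source' := by rw [segPt_zero]
  target' := by rw [segPt_one]

/-- Mean value inequality in hyperbolic balls. -/
theorem mean_value {F : ℂ → ℂ} {C ε : ℝ} (hC : 0 ≤ C)
    (hF : DifferentiableOn ℂ F {z | 0 < z.im})
    (hb : ∀ z : ℂ, 0 < z.im → ‖deriv F z‖ * z.im ≤ C) {p q : ℍ} (hpq : dist p q < ε) (s : unitInterval) :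
    ‖F (segPt p q s) - F p‖ ≤ C * Real.exp ε * (Real.exp ε - 1) := by
  have hε : 0 < ε := dist_nonneg.trans_lt hpq
  set B : Set ℂ := Metric.ball ((p.center ε : ℍ) : ℂ) (p.im * Real.sinh ε) with hB
  have hmem : ∀ z : ℍ, (z : ℂ) ∈ B ↔ dist z p < ε := fun z => by
    rw [hB, Metric.mem_ball, ← UpperHalfPlane.dist_lt_iff_dist_coe_center_lt]
  have hBim : ∀ z ∈ B, ∃ z' : ℍ, (z' : ℂ) = z ∧ dist z' p < ε := by
    intro z hz
    have hz' : z ∈ ((↑) : ℍ → ℂ) '' Metric.ball (α := ℍ) p ε := by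
      rw [UpperHalfPlane.image_coe_ball]; exact hz
    obtain ⟨z', h1, h2⟩ := hz'
    exact ⟨z', h2, h1⟩
  have hconv : Convex ℝ B := convex_ball _ _
  have hp : (p : ℂ) ∈ B := (hmem p).2 (by rw [dist_self]; exact hε)
  have hq : (q : ℂ) ∈ B := (hmem q).2 (by rw [dist_comm]; exact hpq)
  have hs : ((segPt p q s : ℍ) : ℂ) ∈ B := by
    have : ((segPt p q s : ℍ) : ℂ) = AffineMap.lineMap (p : ℂ) (q : ℂ) (s : ℝ) := rfl
    rw [this]
    apply hconv.segment_subset hp hq
    rw [segment_eq_image_lineMap]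
    exact ⟨s, s.2, rfl⟩
  have hopen : IsOpen {z : ℂ | 0 < z.im} := isOpen_lt continuous_const Complex.continuous_im
  have hder : ∀ z ∈ B, ‖deriv F z‖ ≤ C * Real.exp ε / p.im := by
    intro z hz
    obtain ⟨z', rfl, h2⟩ := hBim z hz
    have h3 := hb z' z'.im_pos
    have h4 : p.im ≤ z'.im * Real.exp ε := by
      refine (UpperHalfPlane.im_le_im_mul_exp_dist p z').trans ?_
      apply mul_le_mul_of_nonneg_left _ z'.im_pos.le
      apply Real.exp_le_exp.2
      rw [dist_comm]; exact h2.le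
    have h5 : (z' : ℂ).im = z'.im := rfl
    rw [h5] at h3
    rw [le_div_iff₀ p.im_pos]
    calc ‖deriv F z'‖ * p.im ≤ ‖deriv F z'‖ * (z'.im * Real.exp ε) :=
          mul_le_mul_of_nonneg_left h4 (norm_nonneg _)
      _ = (‖deriv F z'‖ * z'.im) * Real.exp ε := by ring
      _ ≤ C * Real.exp ε := mul_le_mul_of_nonneg_right h3 (Real.exp_pos _).le
  have hmv := hconv.norm_image_sub_le_of_norm_deriv_le (f := F) (C := C * Real.exp ε / p.im)
    (fun z hz => by
      obtain ⟨z', rfl, h2⟩ := hBim z hz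
      exact hF.differentiableAt (hopen.mem_nhds z'.im_pos)) hder hp hs
  refine hmv.trans ?_
  have hd : ‖((segPt p q s : ℍ) : ℂ) - p‖ ≤ p.im * (Real.exp ε - 1) := by
    rw [← dist_eq_norm]
    refine (UpperHalfPlane.dist_coe_le _ _).trans ?_
    apply mul_le_mul_of_nonneg_left _ p.im_pos.le
    have := Real.exp_le_exp.2 ((hmem (segPt p q s)).1 hs).le
    linarith
  have hpos : 0 ≤ C * Real.exp ε / p.im := by
    have := p.im_pos
    positivity
  calc C * Real.exp ε / p.im * ‖((segPt p q s : ℍ) : ℂ) - p‖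
      ≤ C * Real.exp ε / p.im * (p.im * (Real.exp ε - 1)) := mul_le_mul_of_nonneg_left hd hpos
    _ = C * Real.exp ε * (Real.exp ε - 1) := by
      have := p.im_pos.ne'
      field_simp

/-- The action with the marking changed by `χ`. -/
@[reducible] def reAct (U : Type) [MulAction G U] (χ : MulAut G) : MulAction G U where
  smul := fun g u => χ g • u
  one_smul := fun u => by
    change χ 1 • u = u
    rw [map_one, one_smul]
  mul_smul := fun g h u => by
    change χ (g * h) • u = χ g • χ h • u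
    rw [map_mul, mul_smul]

end AGAux

open AGAux in
theorem stmt_AG (hMfd : Stmt_Mfd) (hTL : Stmt_TL) (hBrody : Stmt_Brody) : Stmt_AG := by
  intro R
  obtain ⟨C₁, hC₁⟩ := hBrody R
  set C : ℝ := max C₁ 0 with hC
  have hC0 : 0 ≤ C := le_max_right _ _
  set ε : ℝ := Real.log (1 + 1 / (8 * (C + 1))) with hε
  have hexp : Real.exp ε = 1 + 1 / (8 * (C + 1)) := Real.exp_log (by positivity)
  have hεpos : 0 < ε := Real.log_pos (by
    have : 0 < 1 / (8 * (C + 1)) := by positivity
    linarith)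
  have hsmall : C * Real.exp ε * (Real.exp ε - 1) < 1 / 4 := by
    rw [hexp]
    have h1 : 1 + 1 / (8 * (C + 1)) - 1 = 1 / (8 * (C + 1)) := by ring
    rw [h1]
    have h2 : 1 / (8 * (C + 1)) ≤ 1 := by
      rw [div_le_one (by positivity)]; linarith
    have h3 : C * (1 / (8 * (C + 1))) < 1 / 8 := by
      rw [mul_one_div, div_lt_div_iff₀ (by positivity) (by norm_num)]; linarith
    have h4 : 0 ≤ C * (1 / (8 * (C + 1))) := by positivity
    nlinarith
  refine ⟨ε, hεpos, ?_⟩
  intro U _ _ _ _ _ D tau C₀ q₀ hact hfree hBr hstretch hsys hdense χ hχ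
  obtain ⟨d, hd⟩ := isConj_iff.1 hχ
  -- `χ c = d⁻¹ * chat * d`
  have hχc : χ c = d⁻¹ * chat * d := by
    rw [← hd]; group
  choose cs hcsM hcsD hcsA hcsL hcsZ using fun t => hMfd U (D t) (tau t) C₀ (q₀ t) hact hfree (hBr t)
  choose r j hr hjc hjD hjT hjP using fun t => (hBr t).punct
  have hjsm : ∀ t, letI := cs t; ContMDiff 𝓘(ℂ) 𝓘(ℂ) ω (fun z => d⁻¹ • j t z) := by
    intro t
    let _ := cs t
    refine (hcsA t d⁻¹).comp (hcsL t (j t) (hjc t) ?_)
    have h1 : (fun z : ℍ => D t (j t z)) =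
        (fun w : ℂ => q₀ t + r t * Complex.exp (2 * Real.pi * Complex.I * w)) ∘ ((↑) : ℍ → ℂ) := by
      funext z; exact hjD t z
    rw [h1]
    refine ContMDiff.comp (I' := 𝓘(ℂ)) (ContDiff.contMDiff ?_) UpperHalfPlane.contMDiff_coe
    fun_prop
  have hjper : ∀ t (z : ℍ), d⁻¹ • j t ((1 : ℝ) +ᵥ z) = χ c • (d⁻¹ • j t z) := by
    intro t z
    rw [hjT, hχc]
    simp only [← mul_smul]
    congr 1
    group
  let X : ℝ → MarkedSurface := fun t =>
    { U := U
      charts := cs t
      mfd := hcsM t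
      act := reAct U χ
      pd := @ProperlyDiscontinuousSMul.mk G U _ (reAct U χ).toSMul (by
        intro K L hK hL
        exact (ProperlyDiscontinuousSMul.finite_disjoint_inter_image hK hL).preimage
          (f := χ) (χ.injective.injOn))
      free := fun g u h => by
        have h1 : χ g = 1 := hfree (χ g) u h
        exact (map_eq_one_iff χ χ.injective).1 h1
      holo := fun g => hcsA t (χ g)
      cusp := ⟨fun z => d⁻¹ • j t z, hjsm t, hjper t⟩ }
  let Ry : TeichRay :=
    { X := X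
      D := D
      holo := hcsD
      per := ⟨fun g => tau 0 (χ g), fun g u => (hBr 0).equiv (χ g) u⟩
      nonconst := by
        refine ⟨j 0 UpperHalfPlane.I, j 0 ((1 / 2 : ℝ) +ᵥ UpperHalfPlane.I), ?_⟩
        rw [hjD, hjD]
        intro h0
        have h1 : Complex.exp (2 * Real.pi * Complex.I *
            (((1 / 2 : ℝ) +ᵥ UpperHalfPlane.I : ℍ) : ℂ)) =
            -Complex.exp (2 * Real.pi * Complex.I * (UpperHalfPlane.I : ℂ)) := by
          have h2 : 2 * (Real.pi : ℂ) * Complex.I *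
              (((1 / 2 : ℝ) +ᵥ UpperHalfPlane.I : ℍ) : ℂ) =
              2 * Real.pi * Complex.I * (UpperHalfPlane.I : ℂ) + Real.pi * Complex.I := by
            rw [UpperHalfPlane.coe_vadd]
            push_cast
            ring
          rw [h2, Complex.exp_add, Complex.exp_pi_mul_I]
          ring
        rw [h1] at h0
        have h3 : (2 * (r 0 : ℂ)) * Complex.exp (2 * Real.pi * Complex.I *
            (UpperHalfPlane.I : ℂ)) = 0 := by
          linear_combination h0
        rcases mul_eq_zero.1 h3 with h4 | h4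
        · have h5 : (r 0 : ℂ) = 0 := by simpa using h4
          have h6 : r 0 = 0 := by exact_mod_cast h5
          exact (hr 0).ne' h6
        · exact Complex.exp_ne_zero _ h4
      cusp := ⟨fun z => d⁻¹ • j 0 z, hjsm 0, hjper 0, by
        refine ⟨‖q₀ 0‖ + r 0 + ‖tau 0 d⁻¹‖, fun z _ => ?_⟩
        rw [(hBr 0).equiv, hjD]
        have h1 : ‖Complex.exp (2 * Real.pi * Complex.I * (z : ℂ))‖ ≤ 1 := by
          rw [Complex.norm_exp, Real.exp_le_one_iff]
          have h2 : (2 * (Real.pi : ℂ) * Complex.I * (z : ℂ)).re = -(2 * Real.pi * z.im) := by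
            have h3 : 2 * (Real.pi : ℂ) * Complex.I * (z : ℂ) =
              ((2 * Real.pi : ℝ) : ℂ) * (Complex.I * (z : ℂ)) := by push_cast; ring
            rw [h3, Complex.re_ofReal_mul]
            simp
          rw [h2]
          have := z.im_pos
          have := Real.pi_pos
          have : 0 < 2 * Real.pi * z.im := by positivity
          linarith
        have h2 : ‖(r 0 : ℂ) * Complex.exp (2 * Real.pi * Complex.I * (z : ℂ))‖ ≤ r 0 := by
          rw [norm_mul, Complex.norm_real, Real.norm_of_nonneg (hr 0).le]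
          have := mul_le_mul_of_nonneg_left h1 (hr 0).le
          linarith
        have h3 := norm_add_le (q₀ 0 + (r 0 : ℂ) * Complex.exp (2 * Real.pi * Complex.I * (z : ℂ)))
          (tau 0 d⁻¹)
        have h4 := norm_add_le (q₀ 0) ((r 0 : ℂ) * Complex.exp (2 * Real.pi * Complex.I * (z : ℂ)))
        linarith⟩
      h := fun t => Homeomorph.refl U
      equiv := fun t g u => rfl
      stretch := fun t u => hstretch t u }
  refine ⟨Ry, ?_, fun g => rfl⟩
  intro t g hg
  unfold MarkedSurface.hypLen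
  refine le_iInf fun f => le_iInf fun hf => le_iInf fun p => le_iInf fun q => le_iInf fun hq => ?_
  apply ENNReal.ofReal_le_ofReal
  by_contra hlt
  push Not at hlt
  apply hg
  -- the function in the plane
  let _ := cs t
  have hfc : Continuous f := ContMDiff.continuous (I := 𝓘(ℂ)) (I' := 𝓘(ℂ)) (n := ω) hf
  have hFm : ContMDiff 𝓘(ℂ) 𝓘(ℂ) ω (fun z : ℍ => D t (f z)) := (hcsD t).comp hf
  set F : ℂ → ℂ := fun y => D t (f (UpperHalfPlane.ofComplex y)) with hF
  have hFd : DifferentiableOn ℂ F {z | 0 < z.im} :=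
    UpperHalfPlane.mdifferentiable_iff.1 (hFm.mdifferentiable (by simp))
  have hFz : ∀ z : ℂ, 0 < z.im → F z ∈ Set.range (tau t) → deriv F z = 0 := by
    rintro z hz ⟨g', hg'⟩
    have h1 := hcsZ t f hf ⟨z, hz⟩ ⟨g', by
      rw [hg']
      simp only [hF]
      rw [UpperHalfPlane.ofComplex_apply_of_im_pos hz]⟩
    exact h1
  have hb : ∀ z : ℂ, 0 < z.im → ‖deriv F z‖ * z.im ≤ C := fun z hz =>
    (hC₁ (Set.range (tau t)) (fun x => by
      obtain ⟨g', hg'⟩ := hdense t x
      exact ⟨tau t g', ⟨g', rfl⟩, hg'⟩) F hFd hFz z hz).trans (le_max_left _ _)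
  have hFp : ∀ z : ℍ, F z = D t (f z) := fun z => by
    simp only [hF, UpperHalfPlane.ofComplex_apply]
  -- a nearest lattice point
  obtain ⟨g₀, hg₀⟩ : ∃ g₀, ∀ g', ‖D t (f p) - tau t g₀‖ ≤ ‖D t (f p) - tau t g'‖ := by
    have tau_one : tau t 1 = 0 := by
      have := (hBr t).tau_mul 1 1
      rw [mul_one] at this
      simpa using this
    have tau_inv : ∀ g, tau t g⁻¹ = - tau t g := by
      intro g
      have := (hBr t).tau_mul g g⁻¹
      rw [mul_inv_cancel, tau_one] at this
      linear_combination -this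
    have hcl : IsClosed (Set.range (tau t)) := by
      refine Metric.isClosed_of_pairwise_le_dist (ε := √2) (by positivity) ?_
      rintro _ ⟨a, rfl⟩ _ ⟨b, rfl⟩ hab
      have h1 : tau t (a * b⁻¹) = tau t a - tau t b := by
        rw [(hBr t).tau_mul, tau_inv]; ring
      have h2 := hsys t (a * b⁻¹) (by rw [h1]; exact sub_ne_zero.2 hab)
      rw [h1] at h2
      rw [dist_eq_norm]; exact h2
    obtain ⟨_, ⟨g₀, rfl⟩, h1⟩ := hcl.exists_infDist_eq_dist (Set.range_nonempty _) (D t (f p))
    refine ⟨g₀, fun g' => ?_⟩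
    rw [← dist_eq_norm, ← dist_eq_norm, ← h1]
    exact Metric.infDist_le_dist_of_mem ⟨g', rfl⟩
  set E : Set ℂ := Metric.thickening (1 / 4) (segment ℝ (tau t g₀) (D t (f p))) with hE
  have hEg : tau t g₀ ∈ E :=
    Metric.self_subset_thickening (by norm_num) _ (left_mem_segment ℝ _ _)
  have hpath : ∀ s, D t (segPath hfc p q s) ∈ E := by
    intro s
    rw [hE, Metric.mem_thickening_iff]
    refine ⟨D t (f p), right_mem_segment ℝ _ _, ?_⟩
    have h1 := mean_value hC0 hFd hb hlt s
    rw [hFp, hFp] at h1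
    rw [dist_eq_norm]
    exact h1.trans_lt hsmall
  have hq' : f q = χ g • f p := hq
  obtain ⟨h, n, hn⟩ := hTL U (D t) (tau t) C₀ (q₀ t) hact hfree (hBr t) E
    Metric.isOpen_thickening ((convex_segment _ _).thickening _) ⟨g₀, hEg⟩
    (fun x hx y hy g' hg' => diff_zero (hBr t).tau_mul (hsys t) hg₀ hx hy g' hg')
    (f p) (χ g) ((segPath hfc p q).cast rfl hq'.symm) hpath
  refine ⟨χ.symm (h * d), n, ?_⟩
  apply χ.injective
  rw [hn]
  have h1 : chat = d * χ c * d⁻¹ := by rw [hχc]; group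
  rw [map_mul, map_mul, map_inv, map_zpow]
  have h2 : χ (χ.symm (h * d)) = h * d := χ.apply_symm_apply _
  rw [h2, hχc]
  have h3 : (d⁻¹ * chat * d) ^ n = d⁻¹ * chat ^ n * d := by
    have := conj_zpow (a := d⁻¹) (b := chat) (i := n)
    rw [inv_inv] at this
    exact this
  rw [h3]
  group

end Pool.Agent.CircleShift
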