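import Pool.Agent.Work.MP_0fc146_gt_helper95.Loc

/-!
# Block Cone: the cube of a chart at the cone points
-/

noncomputable section

open scoped Topology
open Filter

namespace Pool.Agent.CircleShift

namespace ConeAux

open LocAux

/-! ### Angles -/

/-- The point of the unit circle. -/
def E (x : ℝ) : ℂ := Complex.exp (x * Complex.I)

theorem E_re (x : ℝ) : (E x).re = Real.cos x := Complex.exp_ofReal_mul_I_re x

theorem E_im (x : ℝ) : (E x).im = Real.sin x := Complex.exp_ofReal_mul_I_im x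

theorem E_add (x y : ℝ) : E (x + y) = E x * E y := by
  unfold E; rw [← Complex.exp_add]; push_cast; ring_nf

theorem E_ne (x : ℝ) : E x ≠ 0 := Complex.exp_ne_zero _

theorem E_norm (x : ℝ) : ‖E x‖ = 1 := Complex.norm_exp_ofReal_mul_I x

theorem E_zero : E 0 = 1 := by simp [E]

theorem E_two_pi : E (2 * Real.pi) = 1 := by
  unfold E; push_cast; exact Complex.exp_two_pi_mul_I

theorem E_cube (x : ℝ) : E x ^ 3 = E (3 * x) := by
  unfold E; rw [← Complex.exp_nat_mul]; push_cast; ring_nf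

theorem norm_mul_E_arg (z : ℂ) : (‖z‖ : ℂ) * E (Complex.arg z) = z :=
  Complex.norm_mul_exp_arg_mul_I z

theorem cross_mul (u a b : ℂ) : cross (u * a) (u * b) = Complex.normSq u * cross a b := by
  simp only [cross, Complex.mul_re, Complex.mul_im, Complex.normSq_apply]; ring

theorem cross_smul_left (r : ℝ) (a b : ℂ) : cross (r * a) b = r * cross a b := by
  simp only [cross, Complex.mul_re, Complex.mul_im, Complex.ofReal_re, Complex.ofReal_im]; ring

theorem cross_smul_right (r : ℝ) (a b : ℂ) : cross a (r * b) = r * cross a b := by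
  simp only [cross, Complex.mul_re, Complex.mul_im, Complex.ofReal_re, Complex.ofReal_im]; ring

theorem cross_E (x y : ℝ) : cross (E x) (E y) = Real.sin (y - x) := by
  simp only [cross, E_re, E_im, Real.sin_sub]; ring

theorem cone_arg {u z : ℂ} {δ : ℝ} (hu : u ≠ 0) (hz : z ≠ 0) (hδ : 0 < δ)
    (h1 : 0 ≤ cross u z) (h2 : 0 ≤ cross z (u * E δ)) :
    0 ≤ Complex.arg (z / u) ∧ Complex.arg (z / u) ≤ δ := by
  set q := z / u with hq
  have hq0 : q ≠ 0 := div_ne_zero hz hu
  have hqn : 0 < ‖q‖ := norm_pos_iff.2 hq0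
  have hun : 0 < Complex.normSq u := Complex.normSq_pos.2 hu
  have hzq : z = u * q := by rw [hq]; field_simp
  have e1 : cross u z = Complex.normSq u * (‖q‖ * Real.sin (Complex.arg q)) := by
    have h3 : cross u z = cross (u * 1) (u * q) := by rw [mul_one, hzq]
    rw [h3, cross_mul]
    congr 1
    have h4 : cross 1 q = cross (E 0) ((‖q‖ : ℝ) * E (Complex.arg q)) := by
      rw [E_zero, norm_mul_E_arg]
    rw [h4, cross_smul_right, cross_E, sub_zero]
  have e2 : cross z (u * E δ) = Complex.normSq u * (‖q‖ * Real.sin (δ - Complex.arg q)) := by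
    rw [hzq, cross_mul]
    congr 1
    have h4 : cross q (E δ) = cross ((‖q‖ : ℝ) * E (Complex.arg q)) (E δ) := by
      rw [norm_mul_E_arg]
    rw [h4, cross_smul_left, cross_E]
  have s1 : 0 ≤ Real.sin (Complex.arg q) := by
    rw [e1] at h1
    have := nonneg_of_mul_nonneg_right h1 hun
    exact nonneg_of_mul_nonneg_right this hqn
  have s2 : 0 ≤ Real.sin (δ - Complex.arg q) := by
    rw [e2] at h2
    have := nonneg_of_mul_nonneg_right h2 hun
    exact nonneg_of_mul_nonneg_right this hqn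
  have a1 := Complex.neg_pi_lt_arg q
  have a2 := Complex.arg_le_pi q
  have a3 : 0 ≤ Complex.arg q := by
    by_contra hneg
    push Not at hneg
    have := Real.sin_neg_of_neg_of_neg_pi_lt hneg a1
    linarith
  refine ⟨a3, ?_⟩
  by_contra hgt
  push Not at hgt
  have := Real.sin_neg_of_neg_of_neg_pi_lt (x := δ - Complex.arg q) (by linarith) (by linarith)
  linarith

theorem cone_of_arg {u : ℂ} {δ r t : ℝ} (hr : 0 ≤ r) (ht : 0 ≤ t) (htδ : t ≤ δ) (hδ' : δ < Real.pi) :
    0 ≤ cross u (r * (u * E t)) ∧ 0 ≤ cross (r * (u * E t)) (u * E δ) := by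
  have hun : 0 ≤ Complex.normSq u := Complex.normSq_nonneg u
  constructor
  · have h1 : cross u (r * (u * E t)) = r * (Complex.normSq u * Real.sin t) := by
      rw [cross_smul_right]
      have : cross u (u * E t) = cross (u * E 0) (u * E t) := by rw [E_zero, mul_one]
      rw [this, cross_mul, cross_E, sub_zero]
    rw [h1]
    have := Real.sin_nonneg_of_nonneg_of_le_pi ht (by linarith)
    positivity
  · rw [cross_smul_left, cross_mul, cross_E]
    have := Real.sin_nonneg_of_nonneg_of_le_pi (x := δ - t) (by linarith) (by linarith)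
    positivity

theorem eq_of_E {x y : ℝ} (h : E x = E y) : ∃ n : ℤ, x - y = 2 * Real.pi * n := by
  unfold E at h
  rw [Complex.exp_eq_exp_iff_exists_int] at h
  obtain ⟨n, hn⟩ := h
  refine ⟨n, ?_⟩
  have h2 : ((x - y : ℝ) : ℂ) * Complex.I = ((2 * Real.pi * n : ℝ) : ℂ) * Complex.I := by
    push_cast
    linear_combination hn
  have h3 := mul_right_cancel₀ Complex.I_ne_zero h2
  exact_mod_cast h3

/-- One step of the argument. -/
theorem arg_step {w w' : ℂ} (hw : w.im ≠ 0) (hw' : w'.im ≠ 0) (hc : 0 < cross w w') :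
    (0 < Complex.arg (w' / w) ∧ Complex.arg (w' / w) < Real.pi) ∧
    Complex.arg (w' / w) = Complex.arg w' - Complex.arg w +
      2 * Real.pi * (if 0 < w.im ∧ w'.im < 0 then 1 else 0) := by
  have hw0 : w ≠ 0 := fun h => hw (by rw [h]; rfl)
  have hw0' : w' ≠ 0 := fun h => hw' (by rw [h]; rfl)
  have hun : 0 < Complex.normSq w := Complex.normSq_pos.2 hw0
  have him : 0 < (w' / w).im := by
    have h1 : cross w w' = Complex.normSq w * (w' / w).im := by
      have h2 : cross w w' = cross (w * 1) (w * (w' / w)) := by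
        rw [mul_one]; congr 1; field_simp
      rw [h2, cross_mul]
      congr 1
      simp [cross]
    rw [h1] at hc
    exact pos_of_mul_pos_right hc hun.le
  have p1 : 0 < Complex.arg (w' / w) := by
    have h1 : 0 ≤ Complex.arg (w' / w) := Complex.arg_nonneg_iff.2 him.le
    rcases eq_or_lt_of_le h1 with h2 | h2
    · have h3 := (Complex.arg_eq_zero_iff.1 h2.symm).2
      linarith
    · exact h2
  have p2 : Complex.arg (w' / w) < Real.pi := by
    rcases eq_or_lt_of_le (Complex.arg_le_pi (w' / w)) with h2 | h2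
    · have h3 := (Complex.arg_eq_pi_iff.1 h2).2
      linarith
    · exact h2
  refine ⟨⟨p1, p2⟩, ?_⟩
  have hE : E (Complex.arg w + Complex.arg (w' / w)) = E (Complex.arg w') := by
    rw [E_add]
    have h1 := norm_mul_E_arg w
    have h2 := norm_mul_E_arg (w' / w)
    have h3 := norm_mul_E_arg w'
    have n1 : (‖w‖ : ℂ) ≠ 0 := by exact_mod_cast (norm_pos_iff.2 hw0).ne'
    have n3 : (‖w'‖ : ℂ) ≠ 0 := by exact_mod_cast (norm_pos_iff.2 hw0').ne'
    have n2 : (‖w' / w‖ : ℂ) = ‖w'‖ / ‖w‖ := by rw [norm_div]; push_cast; rfl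
    rw [n2] at h2
    have h4 : (‖w'‖ : ℂ) * (E (Complex.arg w) * E (Complex.arg (w' / w))) =
        ‖w'‖ * E (Complex.arg w') := by
      rw [h3]
      have h5 : (‖w'‖ : ℂ) * (E (Complex.arg w) * E (Complex.arg (w' / w))) =
          (‖w‖ * E (Complex.arg w)) * (‖w'‖ / ‖w‖ * E (Complex.arg (w' / w))) := by
        field_simp
      rw [h5, h1, h2]
      field_simp
    exact mul_left_cancel₀ n3 h4
  obtain ⟨n, hn⟩ := eq_of_E hE
  have a1 := Complex.neg_pi_lt_arg w
  have a2 := Complex.arg_le_pi w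
  have b1 := Complex.neg_pi_lt_arg w'
  have b2 := Complex.arg_le_pi w'
  have hpi := Real.pi_pos
  split_ifs with hcase
  · have c1 : 0 ≤ Complex.arg w := Complex.arg_nonneg_iff.2 hcase.1.le
    have c2 : Complex.arg w' < 0 := Complex.arg_neg_iff.2 hcase.2
    have hn1 : n = 1 := by
      have h1 : (0 : ℝ) < n := by
        by_contra hle
        push Not at hle
        nlinarith
      have h2 : (n : ℝ) < 2 := by
        by_contra hle
        push Not at hle
        nlinarith
      have h1' : 0 < n := by exact_mod_cast h1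
      have h2' : n < 2 := by exact_mod_cast h2
      omega
    rw [hn1] at hn
    push_cast at hn
    linarith
  · have hn0 : n = 0 := by
      rcases lt_or_gt_of_ne hw with hneg | hpos
      · have c1 : Complex.arg w < 0 := Complex.arg_neg_iff.2 hneg
        have h1 : (-1 : ℝ) < n := by
          by_contra hle
          push Not at hle
          nlinarith
        have h2 : (n : ℝ) < 1 := by
          by_contra hle
          push Not at hle
          nlinarith
        have h1' : -1 < n := by exact_mod_cast h1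
        have h2' : n < 1 := by exact_mod_cast h2
        omega
      · have hpos' : 0 < w'.im := by
          rcases lt_or_gt_of_ne hw' with h | h
          · exact absurd ⟨hpos, h⟩ hcase
          · exact h
        have c1 : 0 ≤ Complex.arg w := Complex.arg_nonneg_iff.2 hpos.le
        have c2 : 0 ≤ Complex.arg w' := Complex.arg_nonneg_iff.2 hpos'.le
        have c3 : Complex.arg w < Real.pi := by
          rcases eq_or_lt_of_le a2 with h2 | h2
          · have h3 := (Complex.arg_eq_pi_iff.1 h2).2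
            linarith
          · exact h2
        have h1 : (-1 : ℝ) < n := by
          by_contra hle
          push Not at hle
          nlinarith
        have h2 : (n : ℝ) < 1 := by
          by_contra hle
          push Not at hle
          nlinarith
        have h1' : -1 < n := by exact_mod_cast h1
        have h2' : n < 1 := by exact_mod_cast h2
        omega
    rw [hn0] at hn
    push_cast at hn
    linarith

/-! ### The angles of the octagon -/

variable (W : OctData)

theorem w_ne (k : Fin 8) : W.w k ≠ 0 := fun h => W.im_ne k (by rw [h]; rfl)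

/-- The angle of the triangle `k` at the center. -/
def alp (k : Fin 8) : ℝ := Complex.arg (W.w (k + 1) / W.w k)

theorem alp_pos (k : Fin 8) : 0 < alp W k := (arg_step (W.im_ne k) (W.im_ne _) (W.area k)).1.1

theorem alp_lt (k : Fin 8) : alp W k < Real.pi :=
  (arg_step (W.im_ne k) (W.im_ne _) (W.area k)).1.2

theorem sum_alp : ∑ k, alp W k = 6 * Real.pi := by
  have h1 : ∀ k, alp W k = Complex.arg (W.w (k + 1)) - Complex.arg (W.w k) +
      2 * Real.pi * (if 0 < (W.w k).im ∧ (W.w (k + 1)).im < 0 then 1 else 0) := fun k =>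
    (arg_step (W.im_ne k) (W.im_ne _) (W.area k)).2
  have h2 : ∑ k : Fin 8, Complex.arg (W.w (k + 1)) = ∑ k, Complex.arg (W.w k) :=
    Equiv.sum_comp (Equiv.addRight (1 : Fin 8)) (fun k => Complex.arg (W.w k))
  have h3 : ∑ k : Fin 8, (if 0 < (W.w (k + 1)).im then (1 : ℝ) else 0) =
      ∑ k, (if 0 < (W.w k).im then (1 : ℝ) else 0) :=
    Equiv.sum_comp (Equiv.addRight (1 : Fin 8)) (fun k => if 0 < (W.w k).im then (1 : ℝ) else 0)
  have h4 : ∀ k : Fin 8, (if 0 < (W.w k).im ∧ (W.w (k + 1)).im < 0 then (1 : ℝ) else 0) =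
      (if (W.w k).im < 0 ∧ 0 < (W.w (k + 1)).im then (1 : ℝ) else 0) +
        (if 0 < (W.w k).im then (1 : ℝ) else 0) - (if 0 < (W.w (k + 1)).im then (1 : ℝ) else 0) := by
    intro k
    rcases lt_or_gt_of_ne (W.im_ne k) with a | a <;>
      rcases lt_or_gt_of_ne (W.im_ne (k + 1)) with b | b
    · simp [a, b, not_lt_of_gt a, not_lt_of_gt b]
    · simp [a, b, not_lt_of_gt a, not_lt_of_gt b]
    · simp [a, b, not_lt_of_gt a, not_lt_of_gt b]
    · simp [a, b, not_lt_of_gt a, not_lt_of_gt b]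
  have h5 : ∑ k : Fin 8, (if (W.w k).im < 0 ∧ 0 < (W.w (k + 1)).im then (1 : ℝ) else 0) = 3 := by
    rw [Finset.sum_boole, W.turns]; norm_num
  calc ∑ k, alp W k = ∑ k, (Complex.arg (W.w (k + 1)) - Complex.arg (W.w k) +
      2 * Real.pi * (if 0 < (W.w k).im ∧ (W.w (k + 1)).im < 0 then 1 else 0)) :=
        Finset.sum_congr rfl fun k _ => h1 k
    _ = 2 * Real.pi * ∑ k : Fin 8, (if 0 < (W.w k).im ∧ (W.w (k + 1)).im < 0 then (1 : ℝ) else 0) := by
        rw [Finset.sum_add_distrib, Finset.sum_sub_distrib, h2, sub_self, zero_add,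
          ← Finset.mul_sum]
    _ = 2 * Real.pi * 3 := by
        congr 1
        rw [Finset.sum_congr rfl fun k _ => h4 k, Finset.sum_sub_distrib, Finset.sum_add_distrib,
          h3, h5]
        ring
    _ = 6 * Real.pi := by ring

/-- The angles of the spokes after the cube root. -/
def phi (n : ℕ) : ℝ := (Complex.arg (W.w 0) + ∑ i ∈ Finset.range n, alp W (Fin.ofNat 8 i)) / 3

theorem phi_succ (n : ℕ) : phi W (n + 1) = phi W n + alp W (Fin.ofNat 8 n) / 3 := by
  unfold phi; rw [Finset.sum_range_succ]; ring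

theorem phi_eight : phi W 8 = phi W 0 + 2 * Real.pi := by
  have h1 : ∑ i ∈ Finset.range 8, alp W (Fin.ofNat 8 i) = ∑ k, alp W k := by
    rw [Finset.sum_range]
    exact Finset.sum_congr rfl fun k _ => by simp
  unfold phi
  rw [h1, sum_alp]
  simp only [Finset.range_zero, Finset.sum_empty, add_zero]
  ring

theorem phi_lt (n : ℕ) : phi W n < phi W (n + 1) := by
  rw [phi_succ]
  have := alp_pos W (Fin.ofNat 8 n)
  linarith

theorem phi_mono : StrictMono (phi W) := strictMono_nat_of_lt_succ (phi_lt W)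

theorem ofNat_succ (n : ℕ) : (Fin.ofNat 8 (n + 1) : Fin 8) = Fin.ofNat 8 n + 1 := by
  apply Fin.ext
  simp only [Fin.ofNat, Fin.val_add]
  have : ((1 : Fin 8) : ℕ) = 1 := rfl
  rw [this]
  omega

theorem w_succ (k : Fin 8) : W.w (k + 1) = (‖W.w (k + 1) / W.w k‖ : ℂ) * (W.w k * E (alp W k)) := by
  have h1 := norm_mul_E_arg (W.w (k + 1) / W.w k)
  have h2 : (‖W.w (k + 1) / W.w k‖ : ℂ) * (W.w k * E (alp W k)) =
      W.w k * ((‖W.w (k + 1) / W.w k‖ : ℂ) * E (Complex.arg (W.w (k + 1) / W.w k))) := by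
    unfold alp; ring
  rw [h2, h1]
  have := w_ne W k
  field_simp

/-- The direction of the spokes. -/
theorem w_polar (n : ℕ) : (‖W.w (Fin.ofNat 8 n)‖ : ℂ) * E (3 * phi W n) = W.w (Fin.ofNat 8 n) := by
  induction n with
  | zero =>
    have h1 : 3 * phi W 0 = Complex.arg (W.w 0) := by
      unfold phi; simp only [Finset.range_zero, Finset.sum_empty, add_zero]; ring
    rw [h1]
    exact norm_mul_E_arg (W.w 0)
  | succ n ih =>
    have h1 : 3 * phi W (n + 1) = 3 * phi W n + alp W (Fin.ofNat 8 n) := by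
      rw [phi_succ]; ring
    rw [h1, E_add, ofNat_succ]
    set k : Fin 8 := Fin.ofNat 8 n
    have h2 := w_succ W k
    have hw := w_ne W k
    have hn : (‖W.w k‖ : ℂ) ≠ 0 := by exact_mod_cast (norm_pos_iff.2 hw).ne'
    have h3 : (‖W.w (k + 1) / W.w k‖ : ℂ) = ‖W.w (k + 1)‖ / ‖W.w k‖ := by
      rw [norm_div]; push_cast; rfl
    rw [h3] at h2
    calc (‖W.w (k + 1)‖ : ℂ) * (E (3 * phi W n) * E (alp W k))
        = ‖W.w (k + 1)‖ / ‖W.w k‖ * ((‖W.w k‖ * E (3 * phi W n)) * E (alp W k)) := by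
          field_simp
      _ = ‖W.w (k + 1)‖ / ‖W.w k‖ * (W.w k * E (alp W k)) := by rw [ih]
      _ = W.w (k + 1) := h2.symm

theorem w_polar' (k : Fin 8) : (‖W.w k‖ : ℂ) * E (3 * phi W k) = W.w k := by
  have := w_polar W k.val
  have h : Fin.ofNat 8 k.val = k := by simp
  rw [h] at this
  exact this

theorem E_phi_succ (k : Fin 8) : E (phi W ((k + 1 : Fin 8) : ℕ)) = E (phi W k + alp W k / 3) := by
  have h : Fin.ofNat 8 k.val = k := by simp
  have h1 := phi_succ W k.val
  rw [h] at h1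
  rw [← h1]
  by_cases hk : k = 7
  · subst hk
    have h2 : (((7 : Fin 8) + 1 : Fin 8) : ℕ) = 0 := rfl
    have h3 : ((7 : Fin 8) : ℕ) + 1 = 8 := rfl
    rw [h2, h3, phi_eight, E_add, E_two_pi, mul_one]
  · have h2 : ((k + 1 : Fin 8) : ℕ) = (k : ℕ) + 1 := by
      have h4 : (k : ℕ) < 8 := k.2
      have h5 : (k : ℕ) ≠ 7 := fun h => hk (Fin.ext h)
      rw [Fin.val_add]
      have : ((1 : Fin 8) : ℕ) = 1 := rfl
      rw [this]
      omega
    rw [h2]

/-! ### Sectors and cones -/

/-- The sectors of the chart. -/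
def Sec (k : Fin 8) : Set ℂ :=
  {z | 0 ≤ cross (E (phi W k)) z ∧ 0 ≤ cross z (E (phi W k) * E (alp W k / 3))}

/-- The cones of the triangles. -/
def Cn (k : Fin 8) : Set ℂ := {y | 0 ≤ cross (W.w k) y ∧ 0 ≤ cross y (W.w (k + 1))}

/-- The branch of the cube root. -/
def cr (k : Fin 8) (y : ℂ) : ℂ :=
  ((‖y‖ ^ (1 / 3 : ℝ) : ℝ) : ℂ) * E (phi W k + Complex.arg (y / W.w k) / 3)

theorem isClosed_Sec (k : Fin 8) : IsClosed (Sec W k) :=
  (isClosed_le continuous_const (continuous_cross continuous_const continuous_id)).inter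
    (isClosed_le continuous_const (continuous_cross continuous_id continuous_const))

theorem sec_rep {k : Fin 8} {z : ℂ} (hz : z ∈ Sec W k) :
    ∃ t, 0 ≤ t ∧ t ≤ alp W k / 3 ∧ z = ‖z‖ * E (phi W k + t) := by
  have ha := alp_pos W k
  by_cases h0 : z = 0
  · exact ⟨0, le_rfl, by positivity, by rw [h0]; simp⟩
  · obtain ⟨h1, h2⟩ := cone_arg (E_ne (phi W k)) h0 (by positivity : 0 < alp W k / 3) hz.1 hz.2
    refine ⟨_, h1, h2, ?_⟩
    have h3 := norm_mul_E_arg (z / E (phi W k))
    rw [norm_div, E_norm, div_one] at h3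
    rw [E_add]
    have h4 := E_ne (phi W k)
    calc z = E (phi W k) * (z / E (phi W k)) := by field_simp
      _ = E (phi W k) * (‖z‖ * E (Complex.arg (z / E (phi W k)))) := by rw [h3]
      _ = _ := by ring

theorem sec_of {k : Fin 8} {r t : ℝ} (hr : 0 ≤ r) (ht : 0 ≤ t) (ht' : t ≤ alp W k / 3) :
    (r : ℂ) * E (phi W k + t) ∈ Sec W k := by
  have ha := alp_lt W k
  have := Real.pi_pos
  rw [E_add]
  exact cone_of_arg hr ht ht' (by linarith)

theorem cn_arg {k : Fin 8} {y : ℂ} (hy : y ∈ Cn W k) :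
    0 ≤ Complex.arg (y / W.w k) ∧ Complex.arg (y / W.w k) ≤ alp W k := by
  have ha := alp_pos W k
  by_cases h0 : y = 0
  · rw [h0, zero_div, Complex.arg_zero]; exact ⟨le_rfl, ha.le⟩
  · refine cone_arg (w_ne W k) h0 ha hy.1 ?_
    have h1 := hy.2
    rw [w_succ, cross_smul_right] at h1
    have h2 : 0 < ‖W.w (k + 1) / W.w k‖ := norm_pos_iff.2 (div_ne_zero (w_ne W _) (w_ne W _))
    exact nonneg_of_mul_nonneg_right h1 h2

theorem cn_eq {k : Fin 8} (y : ℂ) :
    y = ‖y‖ * E (3 * phi W k + Complex.arg (y / W.w k)) := by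
  have hw := w_ne W k
  have hn : (‖W.w k‖ : ℂ) ≠ 0 := by exact_mod_cast (norm_pos_iff.2 hw).ne'
  have h1 := norm_mul_E_arg (y / W.w k)
  have h3 : (‖y / W.w k‖ : ℂ) = ‖y‖ / ‖W.w k‖ := by
    rw [norm_div]; push_cast; rfl
  rw [h3] at h1
  rw [E_add]
  calc y = W.w k * (y / W.w k) := by field_simp
    _ = (‖W.w k‖ * E (3 * phi W k)) * (‖y‖ / ‖W.w k‖ * E (Complex.arg (y / W.w k))) := by
        rw [w_polar', h1]
    _ = _ := by field_simp

theorem rpow_cube {x : ℝ} (hx : 0 ≤ x) : (x ^ (1 / 3 : ℝ)) ^ 3 = x := by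
  rw [← Real.rpow_natCast, ← Real.rpow_mul hx]
  norm_num

theorem cube_rpow {x : ℝ} (hx : 0 ≤ x) : (x ^ 3) ^ (1 / 3 : ℝ) = x := by
  rw [← Real.rpow_natCast, ← Real.rpow_mul hx]
  norm_num

theorem cr_cube {k : Fin 8} (y : ℂ) : (cr W k y) ^ 3 = y := by
  unfold cr
  rw [mul_pow, E_cube]
  have h1 : (((‖y‖ ^ (1 / 3 : ℝ) : ℝ) : ℂ)) ^ 3 = (‖y‖ : ℂ) := by
    rw [← Complex.ofReal_pow, rpow_cube (norm_nonneg y)]
  rw [h1]
  have h2 : 3 * (phi W k + Complex.arg (y / W.w k) / 3) =
      3 * phi W k + Complex.arg (y / W.w k) := by ring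
  rw [h2]
  exact (cn_eq W y).symm

theorem cr_mem {k : Fin 8} {y : ℂ} (hy : y ∈ Cn W k) : cr W k y ∈ Sec W k := by
  obtain ⟨h1, h2⟩ := cn_arg W hy
  exact sec_of W (by positivity) (by positivity) (by linarith)

theorem cube_mem {k : Fin 8} {z : ℂ} (hz : z ∈ Sec W k) : z ^ 3 ∈ Cn W k := by
  obtain ⟨t, h1, h2, h3⟩ := sec_rep W hz
  have hw := w_ne W k
  have hn : (‖W.w k‖ : ℂ) ≠ 0 := by exact_mod_cast (norm_pos_iff.2 hw).ne'
  have h4 : z ^ 3 = ((‖z‖ ^ 3 / ‖W.w k‖ : ℝ) : ℂ) * (W.w k * E (3 * t)) := by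
    conv_lhs => rw [h3]
    rw [mul_pow, E_cube]
    have h5 : 3 * (phi W k + t) = 3 * phi W k + 3 * t := by ring
    rw [h5, E_add]
    conv_rhs => rw [← w_polar' W k]
    push_cast
    rw [norm_mul, E_norm, mul_one, Complex.norm_real, norm_norm]
    field_simp
  have h5 := cone_of_arg (u := W.w k) (δ := alp W k) (r := ‖z‖ ^ 3 / ‖W.w k‖) (t := 3 * t)
    (by positivity) (by linarith) (by linarith) (alp_lt W k)
  rw [← h4] at h5
  refine ⟨h5.1, ?_⟩
  rw [w_succ, cross_smul_right]
  exact mul_nonneg (norm_nonneg _) h5.2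

theorem cr_of_cube {k : Fin 8} {z : ℂ} (hz : z ∈ Sec W k) : cr W k (z ^ 3) = z := by
  obtain ⟨t, h1, h2, h3⟩ := sec_rep W hz
  have hw := w_ne W k
  have hwn : 0 < ‖W.w k‖ := norm_pos_iff.2 hw
  have hn : (‖W.w k‖ : ℂ) ≠ 0 := by exact_mod_cast hwn.ne'
  unfold cr
  rw [norm_pow, cube_rpow (norm_nonneg z)]
  by_cases h0 : z = 0
  · rw [h0]; simp
  have hzn : 0 < ‖z‖ := norm_pos_iff.2 h0
  have h4 : z ^ 3 / W.w k = ((‖z‖ ^ 3 / ‖W.w k‖ : ℝ) : ℂ) * E (3 * t) := by
    rw [div_eq_iff hw]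
    conv_lhs => rw [h3]
    rw [mul_pow, E_cube]
    have h5 : 3 * (phi W k + t) = 3 * phi W k + 3 * t := by ring
    rw [h5, E_add]
    conv_rhs => rw [← w_polar' W k]
    push_cast
    rw [norm_mul, E_norm, mul_one, Complex.norm_real, norm_norm]
    field_simp
  have h5 : Complex.arg (z ^ 3 / W.w k) = 3 * t := by
    rw [h4, Complex.arg_real_mul _ (by positivity)]
    unfold E
    have := alp_lt W k
    have hpi := Real.pi_pos
    have h6 := Complex.arg_exp_mul_I (3 * t)
    rw [h6]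
    rw [toIocMod_eq_self]
    constructor <;> linarith
  rw [h5]
  have h6 : phi W k + 3 * t / 3 = phi W k + t := by ring
  rw [h6]
  exact h3.symm

theorem cover (z : ℂ) : ∃ k, z ∈ Sec W k := by
  have hpi := Real.pi_pos
  have hT : (0 : ℝ) < 2 * Real.pi := by positivity
  set x := toIcoMod hT (phi W 0) (Complex.arg z) with hx
  have hmem := toIcoMod_mem_Ico hT (phi W 0) (Complex.arg z)
  rw [← hx] at hmem
  have hE : E x = E (Complex.arg z) := by
    have h1 : x = Complex.arg z - toIcoDiv hT (phi W 0) (Complex.arg z) • (2 * Real.pi) := rfl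
    rw [h1]
    unfold E
    rw [Complex.exp_eq_exp_iff_exists_int]
    refine ⟨-toIcoDiv hT (phi W 0) (Complex.arg z), ?_⟩
    push_cast
    rw [zsmul_eq_mul]
    ring
  have hex : ∃ n < 8, phi W n ≤ x ∧ x < phi W (n + 1) := by
    by_contra hcon
    push Not at hcon
    have h1 : ∀ n ≤ 8, phi W n ≤ x := by
      intro n
      induction n with
      | zero => intro _; exact hmem.1
      | succ n ih => intro hn; exact hcon n (by omega) (ih (by omega))
    have h2 := h1 8 le_rfl
    rw [phi_eight] at h2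
    linarith [hmem.2]
  obtain ⟨n, hn, h1, h2⟩ := hex
  refine ⟨⟨n, hn⟩, ?_⟩
  have h3 := phi_succ W n
  have h4 : Fin.ofNat 8 n = (⟨n, hn⟩ : Fin 8) := by
    apply Fin.ext
    simp only [Fin.ofNat]
    omega
  rw [h4] at h3
  have h5 := sec_of W (k := ⟨n, hn⟩) (r := ‖z‖) (t := x - phi W n) (norm_nonneg _) (by linarith)
    (by linarith)
  have h6 : phi W ((⟨n, hn⟩ : Fin 8) : ℕ) + (x - phi W n) = x := by
    change phi W n + (x - phi W n) = x
    ring
  rw [h6, hE, norm_mul_E_arg] at h5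
  exact h5

theorem overlap_lt {k k' : Fin 8} (hlt : k < k') {z : ℂ} (hz : z ∈ Sec W k) (hz' : z ∈ Sec W k')
    (h0 : z ≠ 0) : (k' = k + 1 ∧ ∃ b : ℝ, 0 ≤ b ∧ z ^ 3 = b * W.w (k + 1)) ∨
      (k = k' + 1 ∧ ∃ b : ℝ, 0 ≤ b ∧ z ^ 3 = b * W.w k) := by
  obtain ⟨t, h1, h2, h3⟩ := sec_rep W hz
  obtain ⟨t', h1', h2', h3'⟩ := sec_rep W hz'
  have hzn : (‖z‖ : ℂ) ≠ 0 := by exact_mod_cast (norm_pos_iff.2 h0).ne'
  have hE : E (phi W k' + t') = E (phi W k + t) := by
    apply mul_left_cancel₀ hzn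
    rw [← h3, ← h3']
  obtain ⟨n, hn⟩ := eq_of_E hE
  have hpi := Real.pi_pos
  have e1 := phi_succ W k.val
  have e2 := phi_succ W k'.val
  have f1 : Fin.ofNat 8 k.val = k := by simp
  have f2 : Fin.ofNat 8 k'.val = k' := by simp
  rw [f1] at e1
  rw [f2] at e2
  have m1 : phi W (k.val + 1) ≤ phi W k'.val := (phi_mono W).monotone hlt
  have m2 : phi W (k'.val + 1) ≤ phi W 8 := (phi_mono W).monotone k'.2
  have m3 : phi W 0 ≤ phi W k.val := (phi_mono W).monotone (Nat.zero_le _)
  have e8 := phi_eight W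
  have hn0 : (-1 : ℝ) < n := by
    by_contra hle
    push Not at hle
    nlinarith
  have hn2 : (n : ℝ) < 2 := by
    by_contra hle
    push Not at hle
    nlinarith
  have hn0' : -1 < n := by exact_mod_cast hn0
  have hn2' : n < 2 := by exact_mod_cast hn2
  have hcase : n = 0 ∨ n = 1 := by omega
  -- the cube of a point on a spoke direction
  have hcube : ∀ (j : Fin 8), z = ‖z‖ * E (phi W j) → ∃ b : ℝ, 0 ≤ b ∧ z ^ 3 = b * W.w j := by
    intro j hj
    have hwn : 0 < ‖W.w j‖ := norm_pos_iff.2 (w_ne W j)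
    have hn : (‖W.w j‖ : ℂ) ≠ 0 := by exact_mod_cast hwn.ne'
    refine ⟨‖z‖ ^ 3 / ‖W.w j‖, by positivity, ?_⟩
    conv_lhs => rw [hj]
    rw [mul_pow, E_cube]
    conv_rhs => rw [← w_polar' W j]
    push_cast
    rw [norm_mul, E_norm, mul_one, Complex.norm_real, norm_norm]
    field_simp
  rcases hcase with rfl | rfl
  · left
    push_cast at hn
    have h4 : phi W (k.val + 1) = phi W k'.val := by linarith
    have h5 : k.val + 1 = k'.val := (phi_mono W).injective h4
    have h6 : k' = k + 1 := by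
      apply Fin.ext
      rw [Fin.val_add]
      have : ((1 : Fin 8) : ℕ) = 1 := rfl
      rw [this]
      have := k'.2
      omega
    refine ⟨h6, ?_⟩
    rw [← h6]
    apply hcube
    have h7 : t' = 0 := by linarith
    rw [h7, add_zero] at h3'
    exact h3'
  · right
    push_cast at hn
    have h4 : phi W (k'.val + 1) = phi W 8 := by linarith
    have h5 : k'.val + 1 = 8 := (phi_mono W).injective h4
    have h4' : phi W k.val = phi W 0 := by linarith
    have h5' : k.val = 0 := (phi_mono W).injective h4'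
    have h6 : k = k' + 1 := by
      apply Fin.ext
      rw [Fin.val_add]
      have : ((1 : Fin 8) : ℕ) = 1 := rfl
      rw [this]
      omega
    refine ⟨h6, ?_⟩
    apply hcube
    have h7 : t = 0 := by linarith
    rw [h7, add_zero] at h3
    exact h3

theorem overlap {k k' : Fin 8} {z : ℂ} (hz : z ∈ Sec W k) (hz' : z ∈ Sec W k') :
    k = k' ∨ z = 0 ∨ (k' = k + 1 ∧ ∃ b : ℝ, 0 ≤ b ∧ z ^ 3 = b * W.w (k + 1)) ∨
      (k = k' + 1 ∧ ∃ b : ℝ, 0 ≤ b ∧ z ^ 3 = b * W.w k) := by
  by_cases h0 : z = 0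
  · exact Or.inr (Or.inl h0)
  rcases lt_trichotomy k k' with hlt | heq | hgt
  · exact Or.inr (Or.inr (overlap_lt W hlt hz hz' h0))
  · exact Or.inl heq
  · rcases overlap_lt W hgt hz' hz h0 with ⟨h1, h2⟩ | ⟨h1, h2⟩
    · right; right; right
      refine ⟨h1, ?_⟩
      rw [h1]; exact h2
    · right; right; left
      refine ⟨h1, ?_⟩
      rw [← h1]; exact h2

theorem arg_pos_mul_self {b : ℝ} (hb : 0 < b) {w : ℂ} (hw : w ≠ 0) : Complex.arg (b * w / w) = 0 := by
  rw [mul_div_assoc, div_self hw, mul_one]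
  exact Complex.arg_ofReal_of_nonneg hb.le

theorem cr_spoke (k : Fin 8) {b : ℝ} (hb : 0 ≤ b) :
    cr W k (b * W.w (k + 1)) = cr W (k + 1) (b * W.w (k + 1)) := by
  unfold cr
  rcases eq_or_lt_of_le hb with rfl | hb'
  · simp
  · rw [arg_pos_mul_self hb' (w_ne W (k + 1)), mul_div_assoc, Complex.arg_real_mul _ hb', zero_div,
      add_zero, E_phi_succ]
    rfl

theorem continuousOn_cr (k : Fin 8) : ContinuousOn (cr W k) (Cn W k) := by
  intro y hy
  by_cases h0 : y = 0
  · have hz : cr W k 0 = 0 := by unfold cr; simp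
    subst h0
    rw [ContinuousWithinAt, hz, tendsto_zero_iff_norm_tendsto_zero]
    have h1 : (fun y => ‖cr W k y‖) = fun y : ℂ => ‖y‖ ^ (1 / 3 : ℝ) := by
      funext y
      unfold cr
      rw [norm_mul, E_norm, mul_one, Complex.norm_real, Real.norm_of_nonneg (by positivity)]
    rw [h1]
    have h2 : ContinuousAt (fun y : ℂ => ‖y‖ ^ (1 / 3 : ℝ)) 0 :=
      (continuous_norm.rpow_const (fun _ => Or.inr (by norm_num))).continuousAt
    have h3 : Tendsto (fun y : ℂ => ‖y‖ ^ (1 / 3 : ℝ)) (𝓝 0) (𝓝 0) := by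
      have h4 := h2.tendsto
      simpa using h4
    exact h3.mono_left nhdsWithin_le_nhds
  · apply ContinuousAt.continuousWithinAt
    have hw := w_ne W k
    obtain ⟨h1, h2⟩ := cn_arg W hy
    have hsl : y / W.w k ∈ Complex.slitPlane := by
      rw [Complex.mem_slitPlane_iff_arg]
      have := alp_lt W k
      exact ⟨by linarith, div_ne_zero h0 hw⟩
    have c1 : ContinuousAt (fun y : ℂ => Complex.arg (y / W.w k)) y :=
      (Complex.continuousAt_arg hsl).comp (f := fun y : ℂ => y / W.w k)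
        (continuousAt_id.div_const _)
    have c2 : ContinuousAt (fun y : ℂ => ‖y‖ ^ (1 / 3 : ℝ)) y :=
      (continuous_norm.rpow_const (fun _ => Or.inr (by norm_num))).continuousAt
    unfold cr E
    apply ContinuousAt.mul
    · exact Complex.continuous_ofReal.continuousAt.comp c2
    · apply Complex.continuous_exp.continuousAt.comp
      apply ContinuousAt.mul _ continuousAt_const
      apply Complex.continuous_ofReal.continuousAt.comp
      exact continuousAt_const.add (c1.div_const _)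

section tree

variable {U : Type} [TopologicalSpace U] [MulAction G U] {pt : G → Fin 8 → ℝ × ℝ → U}

theorem tau_one : W.tau 1 = 0 := by
  have := W.tau_mul 1 1
  rw [mul_one] at this
  simpa using this

variable {W} in
omit [TopologicalSpace U] [MulAction G U] in
theorem D_one {D : U → ℂ} (hD : IsDev pt W D) (k : Fin 8) {d : ℝ × ℝ} (hd : d ∈ Tset) :
    D (pt 1 k d) = d.1 * W.w k + d.2 * W.w (k + 1) := by
  rw [hD 1 k d hd, tau_one, zero_add]

theorem comb_mem (k : Fin 8) {a b : ℝ} (ha : 0 ≤ a) (hb : 0 ≤ b) :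
    (a : ℂ) * W.w k + b * W.w (k + 1) ∈ Cn W k := by
  have hA := W.area k
  constructor
  · have : cross (W.w k) ((a : ℂ) * W.w k + b * W.w (k + 1)) = b * cross (W.w k) (W.w (k + 1)) := by
      simp only [cross, Complex.add_re, Complex.mul_re, Complex.ofReal_re, Complex.ofReal_im,
        zero_mul, sub_zero, Complex.add_im, Complex.mul_im, add_zero]
      ring
    rw [this]; exact mul_nonneg hb hA.le
  · have : cross ((a : ℂ) * W.w k + b * W.w (k + 1)) (W.w (k + 1)) =
        a * cross (W.w k) (W.w (k + 1)) := by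
      simp only [cross, Complex.add_re, Complex.mul_re, Complex.ofReal_re, Complex.ofReal_im,
        zero_mul, sub_zero, Complex.add_im, Complex.mul_im, add_zero]
      ring
    rw [this]; exact mul_nonneg ha hA.le

theorem co_nonneg (k : Fin 8) {y : ℂ} (hy : y ∈ Cn W k) :
    0 ≤ (co (W.w k) (W.w (k + 1)) y).1 ∧ 0 ≤ (co (W.w k) (W.w (k + 1)) y).2 :=
  ⟨div_nonneg hy.2 (W.area k).le, div_nonneg hy.1 (W.area k).le⟩

/-- The chart, as a map. -/
def fmap (pt : G → Fin 8 → ℝ × ℝ → U) (D : U → ℂ) (u : U) : ℂ :=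
  haveI := Classical.dec
  if h : ∃ k : Fin 8, u ∈ pt 1 k '' Tset then cr W h.choose (D u) else 0

variable {W} in
theorem fmap_eq (hT : OctTree U pt) {D : U → ℂ} (hD : IsDev pt W D) (k : Fin 8) {d : ℝ × ℝ}
    (hd : d ∈ Tset) : fmap W pt D (pt 1 k d) = cr W k (D (pt 1 k d)) := by
  have hex : ∃ k' : Fin 8, pt 1 k d ∈ pt 1 k' '' Tset := ⟨k, d, hd, rfl⟩
  unfold fmap
  rw [dif_pos hex]
  obtain ⟨d', hd', he⟩ := hex.choose_spec
  set k' := hex.choose
  rcases hT.inj 1 k d 1 k' d' hd hd' he.symm with ⟨-, e2, -⟩ | ⟨-, e2, e3⟩ | ⟨-, e2, e3, e4⟩ |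
    ⟨-, e2, e3, e4⟩ | ⟨e1, -⟩
  · rw [e2]
  · rw [D_one hD k hd, e2]
    simp only [Complex.ofReal_zero, zero_mul, add_zero]
    unfold cr
    simp
  · rw [D_one hD k hd, e3, e2]
    simp only [Complex.ofReal_zero, zero_mul, zero_add]
    exact (cr_spoke W k hd.2.1).symm
  · rw [D_one hD k hd, e4]
    simp only [Complex.ofReal_zero, zero_mul, add_zero]
    rw [e2]
    exact cr_spoke W k' hd'.2.1
  · rw [one_mul] at e1
    exact absurd e1.symm (Tl_ne_one k)

/-- The section, as a map. -/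
def smap (pt : G → Fin 8 → ℝ × ℝ → U) (z : ℂ) : U :=
  pt 1 (cover W z).choose
    (co (W.w (cover W z).choose) (W.w ((cover W z).choose + 1)) (z ^ 3))

variable {W} in
theorem smap_eq (hT : OctTree U pt) {z : ℂ} (hV : ∀ k, (co (W.w k) (W.w (k + 1)) (z ^ 3)).1 +
      (co (W.w k) (W.w (k + 1)) (z ^ 3)).2 < 1) {k : Fin 8} (hz : z ∈ Sec W k) :
    smap W pt z = pt 1 k (co (W.w k) (W.w (k + 1)) (z ^ 3)) := by
  unfold smap
  have hz' := (cover W z).choose_spec
  set k' := (cover W z).choose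
  have hsp : ∀ (j : Fin 8) (b : ℝ), 0 ≤ b → z ^ 3 = b * W.w (j + 1) →
      pt 1 j (co (W.w j) (W.w (j + 1)) (z ^ 3)) =
        pt 1 (j + 1) (co (W.w (j + 1)) (W.w (j + 1 + 1)) (z ^ 3)) := by
    intro j b hb hj
    have h1 := hV j
    have c1 : co (W.w j) (W.w (j + 1)) (z ^ 3) = (0, b) := by
      have := co_comb (W.area j).ne' 0 b
      rw [Complex.ofReal_zero, zero_mul, zero_add, ← hj] at this
      exact this
    have c2 : co (W.w (j + 1)) (W.w (j + 1 + 1)) (z ^ 3) = (b, 0) := by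
      have := co_comb (W.area (j + 1)).ne' b 0
      rw [Complex.ofReal_zero, zero_mul, add_zero, ← hj] at this
      exact this
    rw [c1] at h1 ⊢
    rw [c2]
    exact (hT.spoke 1 j b hb (by simpa using h1)).symm
  rcases overlap W hz' hz with h | h | ⟨h, b, hb, h2⟩ | ⟨h, b, hb, h2⟩
  · rw [h]
  · rw [h]
    have h1 : ∀ j, co (W.w j) (W.w (j + 1)) ((0 : ℂ) ^ 3) = (0, 0) := by
      intro j
      have := co_comb (W.area j).ne' 0 0
      rw [Complex.ofReal_zero, zero_mul, zero_mul, zero_add] at this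
      rw [← this]
      norm_num
    rw [h1, h1]
    exact hT.center 1 k' k
  · rw [h]
    exact hsp k' b hb h2
  · rw [h] at h2 ⊢
    exact (hsp k b hb h2).symm

end tree

end ConeAux

open LocAux ConeAux in
theorem stmt_Cone (hDC : Stmt_DevCont) : Stmt_Cone := by
  intro U _ _ _ pt hT W D hD
  obtain ⟨hDc, -⟩ := hDC U pt hT W D hD
  -- a disc on which the section is defined
  obtain ⟨ρ, hρ, hρV⟩ : ∃ ρ > 0, ∀ z ∈ Metric.closedBall (0 : ℂ) ρ, ∀ k,
      (co (W.w k) (W.w (k + 1)) (z ^ 3)).1 + (co (W.w k) (W.w (k + 1)) (z ^ 3)).2 < 1 := by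
    have hopen : IsOpen {z : ℂ | ∀ k, (co (W.w k) (W.w (k + 1)) (z ^ 3)).1 +
        (co (W.w k) (W.w (k + 1)) (z ^ 3)).2 < 1} := by
      rw [Set.ofPred_forall]
      refine isOpen_iInter_of_finite fun k => ?_
      have c := (continuous_co (W.w k) (W.w (k + 1))).comp (continuous_pow (M := ℂ) 3)
      exact isOpen_lt ((continuous_fst.comp c).add (continuous_snd.comp c)) continuous_const
    have h0 : (0 : ℂ) ∈ {z : ℂ | ∀ k, (co (W.w k) (W.w (k + 1)) (z ^ 3)).1 +
        (co (W.w k) (W.w (k + 1)) (z ^ 3)).2 < 1} := by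
      intro j
      have := co_comb (W.area j).ne' 0 0
      rw [Complex.ofReal_zero, zero_mul, zero_mul, zero_add] at this
      have h1 : ((0 : ℂ) ^ 3) = 0 := by norm_num
      rw [h1, this]
      norm_num
    obtain ⟨ρ, hρ, h⟩ := Metric.isOpen_iff.1 hopen 0 h0
    refine ⟨ρ / 2, by positivity, fun z hz => h ?_⟩
    rw [Metric.mem_closedBall] at hz
    rw [Metric.mem_ball]
    linarith
  -- the section is continuous
  have hsc : ContinuousOn (smap W pt) (Metric.ball (0 : ℂ) ρ) := by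
    have h1 : ContinuousOn (smap W pt) (⋃ k, Metric.closedBall (0 : ℂ) ρ ∩ Sec W k) := by
      refine (locallyFinite_of_finite _).continuousOn_iUnion
        (fun k => Metric.isClosed_closedBall.inter (isClosed_Sec W k)) fun k => ?_
      have c := (continuous_co (W.w k) (W.w (k + 1))).comp (continuous_pow (M := ℂ) 3)
      have h2 : ContinuousOn (fun z : ℂ => pt 1 k (co (W.w k) (W.w (k + 1)) (z ^ 3)))
          (Metric.closedBall (0 : ℂ) ρ ∩ Sec W k) := by
        refine (continuousOn_pt hT 1 k).comp (t := Tset) c.continuousOn ?_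
        rintro z ⟨hz1, hz2⟩
        obtain ⟨p1, p2⟩ := co_nonneg W k (cube_mem W hz2)
        have p3 := hρV z hz1 k
        exact ⟨p1, p2, p3.le, by intro h; simp only at h; linarith,
          by intro h; simp only at h; linarith⟩
      refine h2.congr ?_
      rintro z ⟨hz1, hz2⟩
      exact smap_eq hT (hρV z hz1) hz2
    refine h1.mono fun z hz => ?_
    obtain ⟨k, hk⟩ := cover W z
    exact Set.mem_iUnion.2 ⟨k, Metric.ball_subset_closedBall hz, hk⟩
  -- the map is continuous
  have hfc : ContinuousOn (fmap W pt D) (⋃ k, pt 1 k '' Tset) := by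
    refine (locallyFinite_of_finite _).continuousOn_iUnion (fun k => isClosed_tri hT 1 k) fun k => ?_
    have h2 : ContinuousOn (fun u : U => cr W k (D u)) (pt 1 k '' Tset) := by
      refine (continuousOn_cr W k).comp hDc.continuousOn ?_
      rintro _ ⟨d, hd, rfl⟩
      rw [D_one hD k hd]
      exact comb_mem W k hd.1 hd.2.1
    refine h2.congr ?_
    rintro _ ⟨d, hd, rfl⟩
    exact fmap_eq hT hD k hd
  have h00 : ((0, 0) : ℝ × ℝ) ∈ Tset := ⟨le_rfl, le_rfl, by simp, by simp, by simp⟩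
  obtain ⟨N, hN, huN, hstar⟩ := star hT (pt 1 0 (0, 0))
  have hNsub : N ⊆ ⋃ k, pt 1 k '' Tset := by
    intro v hv
    obtain ⟨h, k, d, hd, rfl⟩ := hT.surj v
    obtain ⟨d', hd', he⟩ := hstar _ hv h k ⟨d, hd, rfl⟩
    have h1 : h = 1 := by
      rcases hT.inj 1 0 (0, 0) h k d' h00 hd' he.symm with ⟨e1, -⟩ | ⟨e1, -⟩ | ⟨e1, -⟩ |
        ⟨e1, -⟩ | ⟨-, -, e3, -⟩
      · exact e1.symm
      · exact e1.symm
      · exact e1.symm
      · exact e1.symm
      · norm_num at e3
    rw [h1]
    exact Set.mem_iUnion.2 ⟨k, d, hd, rfl⟩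
  have hcenter : fmap W pt D (pt 1 0 (0, 0)) = 0 := by
    rw [fmap_eq hT hD 0 h00, D_one hD 0 h00]
    simp only [Complex.ofReal_zero, zero_mul, add_zero]
    unfold cr
    simp
  obtain ⟨e, he1, he2, he3⟩ := chart_of (f := fmap W pt D) (s := smap W pt) hN
    (Metric.isOpen_ball (x := (0 : ℂ)) (ε := ρ)) (hfc.mono hNsub) hsc huN
    (by rw [hcenter]; exact Metric.mem_ball_self hρ)
    (by
      intro v hv hvV
      obtain ⟨k, d, hd, rfl⟩ := Set.mem_iUnion.1 (hNsub hv)
      rw [fmap_eq hT hD k hd] at hvV ⊢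
      have hmem : D (pt 1 k d) ∈ Cn W k := by
        rw [D_one hD k hd]; exact comb_mem W k hd.1 hd.2.1
      rw [smap_eq hT (hρV _ (Metric.ball_subset_closedBall hvV)) (cr_mem W hmem), cr_cube,
        D_one hD k hd, co_comb (W.area k).ne'])
    (by
      intro z hz
      obtain ⟨k, hk⟩ := cover W z
      have hz' := hρV z (Metric.ball_subset_closedBall hz)
      rw [smap_eq hT hz' hk]
      obtain ⟨p1, p2⟩ := co_nonneg W k (cube_mem W hk)
      have p3 := hz' k
      have hd : co (W.w k) (W.w (k + 1)) (z ^ 3) ∈ Tset :=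
        ⟨p1, p2, p3.le, by intro h; linarith, by intro h; linarith⟩
      rw [fmap_eq hT hD k hd, D_one hD k hd, co_spec (W.area k).ne', cr_of_cube W hk])
  refine ⟨e, he1, ?_, fun y hy => ?_⟩
  · rw [he3, hcenter]
  · rw [he3]
    obtain ⟨k, d, hd, rfl⟩ := Set.mem_iUnion.1 (hNsub (he2 hy))
    rw [fmap_eq hT hD k hd, cr_cube]

end Pool.Agent.CircleShift
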