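import Pool.Agent.Work.MP_0fc146_gt_h31.Interface

/-!
# Block Cov: the developing map is a covering away from the lattice and the punctures
-/

noncomputable section

open scoped Topology
open Filter

namespace Pool.Agent.CircleShift

namespace CovAux

variable {U : Type} [TopologicalSpace U] [T2Space U] {D : U → ℂ}

/-- Two sections over a ball which agree at one point are equal. -/
theorem section_unique {y₀ : ℂ} {ρ : ℝ}
    (loc : ∀ u, D u ∈ Metric.ball y₀ ρ → ∃ e : OpenPartialHomeomorph U ℂ, u ∈ e.source ∧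
      ∀ y ∈ e.source, e y = D y) {s s' : ℂ → U}
    (hs : ContinuousOn s (Metric.ball y₀ ρ)) (hs' : ContinuousOn s' (Metric.ball y₀ ρ))
    (hD : ∀ y ∈ Metric.ball y₀ ρ, D (s y) = y) (hD' : ∀ y ∈ Metric.ball y₀ ρ, D (s' y) = y)
    {y₁ : ℂ} (hy₁ : y₁ ∈ Metric.ball y₀ ρ) (h : s y₁ = s' y₁) :
    ∀ y ∈ Metric.ball y₀ ρ, s y = s' y := by
  have hconn : PreconnectedSpace (Metric.ball y₀ ρ) :=
    Subtype.preconnectedSpace (convex_ball y₀ ρ).isPreconnected
  have hclosed : IsClosed {y : Metric.ball y₀ ρ | s y = s' y} :=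
    isClosed_eq (continuousOn_iff_continuous_domRestrict.1 hs)
      (continuousOn_iff_continuous_domRestrict.1 hs')
  have hopen : IsOpen {y : Metric.ball y₀ ρ | s y = s' y} := by
    rw [isOpen_iff_mem_nhds]
    intro y hy
    have hy' : s y = s' y := hy
    obtain ⟨e, he, heD⟩ := loc (s y) (by rw [hD y y.2]; exact y.2)
    have c1 : Continuous (fun z : Metric.ball y₀ ρ => s z) :=
      continuousOn_iff_continuous_domRestrict.1 hs
    have c2 : Continuous (fun z : Metric.ball y₀ ρ => s' z) :=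
      continuousOn_iff_continuous_domRestrict.1 hs'
    have n1 : ∀ᶠ z : Metric.ball y₀ ρ in 𝓝 y, s z ∈ e.source :=
      c1.continuousAt.eventually_mem (e.open_source.mem_nhds he)
    have n2 : ∀ᶠ z : Metric.ball y₀ ρ in 𝓝 y, s' z ∈ e.source :=
      c2.continuousAt.eventually_mem (e.open_source.mem_nhds (by rw [← hy']; exact he))
    filter_upwards [n1, n2] with z h1 h2
    apply e.injOn h1 h2
    rw [heD _ h1, heD _ h2, hD z z.2, hD' z z.2]
  have hclopen : IsClopen {y : Metric.ball y₀ ρ | s y = s' y} := ⟨hclosed, hopen⟩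
  have huniv := hclopen.eq_univ ⟨⟨y₁, hy₁⟩, h⟩
  intro y hy
  have : (⟨y, hy⟩ : Metric.ball y₀ ρ) ∈ {y : Metric.ball y₀ ρ | s y = s' y} := by
    rw [huniv]; trivial
  exact this

theorem evenly (hDc : Continuous D) {y₀ : ℂ} {ρ : ℝ} (hρ : 0 < ρ)
    (loc : ∀ u, D u ∈ Metric.ball y₀ ρ → ∃ e : OpenPartialHomeomorph U ℂ, u ∈ e.source ∧
      ∀ y ∈ e.source, e y = D y)
    (sec : ∀ u, D u ∈ Metric.ball y₀ ρ → ∃ s : ℂ → U, ContinuousOn s (Metric.ball y₀ ρ) ∧
      (∀ y ∈ Metric.ball y₀ ρ, D (s y) = y) ∧ s (D u) = u) :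
    IsEvenlyCovered D y₀ (D ⁻¹' {y₀}) := by
  have hy₀ : y₀ ∈ Metric.ball y₀ ρ := Metric.mem_ball_self hρ
  choose! s hsc hsD hsu using sec
  have hmemF : ∀ f : D ⁻¹' {y₀}, D f ∈ Metric.ball y₀ ρ := fun f => by
    have : D f = y₀ := f.2
    rw [this]; exact hy₀
  have hdisc : DiscreteTopology (D ⁻¹' {y₀}) := by
    rw [discreteTopology_iff_isOpen_singleton]
    intro f
    obtain ⟨e, he, heD⟩ := loc f (hmemF f)
    have h1 : ({f} : Set (D ⁻¹' {y₀})) = Subtype.val ⁻¹' e.source := by
      ext g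
      simp only [Set.mem_singleton_iff, Set.mem_preimage]
      constructor
      · rintro rfl; exact he
      · intro hg
        apply Subtype.ext
        apply e.injOn hg he
        have hg2 : D g = y₀ := g.2
        have hf2 : D f = y₀ := f.2
        rw [heD _ hg, heD _ he, hg2, hf2]
    rw [h1]
    exact e.open_source.preimage continuous_subtype_val
  have huniq : ∀ u u' y₁, D u ∈ Metric.ball y₀ ρ → D u' ∈ Metric.ball y₀ ρ →
      y₁ ∈ Metric.ball y₀ ρ → s u y₁ = s u' y₁ → ∀ y ∈ Metric.ball y₀ ρ, s u y = s u' y :=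
    fun u u' y₁ hu hu' hy₁ h => section_unique loc (hsc u hu) (hsc u' hu') (hsD u hu) (hsD u' hu')
      hy₁ h
  refine ⟨hdisc, Metric.ball y₀ ρ, hy₀, Metric.isOpen_ball, Metric.isOpen_ball.preimage hDc,
    { toFun := fun u => (⟨D u, u.2⟩, ⟨s u y₀, hsD u u.2 y₀ hy₀⟩)
      invFun := fun x => ⟨s x.2 x.1, by
        change D (s x.2 x.1) ∈ Metric.ball y₀ ρ
        rw [hsD _ (hmemF x.2) _ x.1.2]; exact x.1.2⟩
      left_inv := ?_
      right_inv := ?_
      continuous_toFun := ?_
      continuous_invFun := ?_ }, fun _ => rfl⟩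
  · rintro ⟨u, hu⟩
    apply Subtype.ext
    change s (s u y₀) (D u) = u
    have h1 : D (s u y₀) = y₀ := hsD u hu y₀ hy₀
    have h2 : D (s u y₀) ∈ Metric.ball y₀ ρ := by rw [h1]; exact hy₀
    have h3 : s (s u y₀) y₀ = s u y₀ := by
      have := hsu (s u y₀) h2
      rwa [h1] at this
    rw [huniq _ _ y₀ h2 hu hy₀ h3 (D u) hu, hsu u hu]
  · rintro ⟨⟨y, hy⟩, ⟨f, hf⟩⟩
    have hf' : D f = y₀ := hf
    have hfb : D f ∈ Metric.ball y₀ ρ := by rw [hf']; exact hy₀
    have h1 : D (s f y) = y := hsD f hfb y hy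
    have h2 : D (s f y) ∈ Metric.ball y₀ ρ := by rw [h1]; exact hy
    have h3 : s (s f y) y = s f y := by
      have := hsu (s f y) h2
      rwa [h1] at this
    have h4 : s (s f y) y₀ = f := by
      rw [huniq _ _ y h2 hfb hy h3 y₀ hy₀]
      have := hsu f hfb
      rwa [hf'] at this
    apply Prod.ext
    · apply Subtype.ext; exact h1
    · apply Subtype.ext; exact h4
  · refine Continuous.prodMk (Continuous.subtype_mk (hDc.comp continuous_subtype_val) _) ?_
    refine Continuous.subtype_mk ?_ _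
    rw [continuous_iff_continuousAt]
    rintro ⟨u, hu⟩
    have hu' : D u ∈ Metric.ball y₀ ρ := hu
    obtain ⟨e, he, heD⟩ := loc u hu'
    have c1 : ContinuousAt (fun v : D ⁻¹' Metric.ball y₀ ρ => s u (D v)) ⟨u, hu⟩ := by
      have h1 : ContinuousAt (s u) (D u) := (hsc u hu').continuousAt (Metric.isOpen_ball.mem_nhds hu')
      exact ContinuousAt.comp (f := fun v : D ⁻¹' Metric.ball y₀ ρ => D v) h1
        (hDc.comp continuous_subtype_val).continuousAt
    have n1 : ∀ᶠ v : D ⁻¹' Metric.ball y₀ ρ in 𝓝 ⟨u, hu⟩, s u (D v) ∈ e.source := by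
      apply c1.eventually_mem
      apply e.open_source.mem_nhds
      change s u (D u) ∈ e.source
      rw [hsu u hu']; exact he
    have n2 : ∀ᶠ v : D ⁻¹' Metric.ball y₀ ρ in 𝓝 ⟨u, hu⟩, (v : U) ∈ e.source :=
      continuous_subtype_val.continuousAt.eventually_mem (e.open_source.mem_nhds he)
    have h5 : (fun v : D ⁻¹' Metric.ball y₀ ρ => s v y₀) =ᶠ[𝓝 ⟨u, hu⟩] fun _ => s u y₀ := by
      filter_upwards [n1, n2] with v h1 h2
      have hv : D v ∈ Metric.ball y₀ ρ := v.2
      have h3 : s u (D v) = v := by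
        apply e.injOn h1 h2
        rw [heD _ h1, heD _ h2, hsD u hu' _ hv]
      refine (huniq v u (D v) hv hu' hv ?_ y₀ hy₀)
      rw [hsu v hv, h3]
    exact (continuousAt_const.congr h5.symm)
  · refine Continuous.subtype_mk ?_ _
    rw [continuous_prod_of_discrete_right]
    intro f
    exact continuousOn_iff_continuous_domRestrict.1 (hsc f (hmemF f))

end CovAux

open CovAux in
theorem stmt_Cov : Stmt_Cov := by
  intro U _ _ _ D tau C₀ q₀ hact hB y₀ hy₀
  -- basic algebra
  have tau_one : tau 1 = 0 := by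
    have := hB.tau_mul 1 1
    rw [mul_one] at this
    simpa using this
  have tau_inv : ∀ g, tau g⁻¹ = - tau g := by
    intro g
    have := hB.tau_mul g g⁻¹
    rw [mul_inv_cancel, tau_one] at this
    linear_combination -this
  have D_cone : ∀ g, D (g • C₀) = tau g := by
    intro g; rw [hB.equiv, hB.zero, zero_add]
  -- distance to the lattice
  obtain ⟨δ, hδ, hdisc⟩ := hB.disc
  have key : ∀ x : ℂ, (∀ g, x ≠ tau g) → ∃ η > 0, ∀ g, η ≤ ‖x - tau g‖ := by
    intro x hx
    by_cases h : ∃ g₀, ‖x - tau g₀‖ < δ / 2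
    · obtain ⟨g₀, hg₀⟩ := h
      refine ⟨min ‖x - tau g₀‖ (δ / 2), lt_min (norm_pos_iff.2 (sub_ne_zero.2 (hx g₀)))
        (by positivity), ?_⟩
      intro g
      by_cases hg : tau (g * g₀⁻¹) = 0
      · have : tau g = tau g₀ := by
          rw [hB.tau_mul, tau_inv] at hg
          linear_combination hg
        rw [this]; exact min_le_left _ _
      · have h1 := hdisc _ hg
        rw [hB.tau_mul, tau_inv] at h1
        have h2 : ‖tau g + -tau g₀‖ ≤ ‖x - tau g₀‖ + ‖x - tau g‖ := by
          have : tau g + -tau g₀ = (x - tau g₀) - (x - tau g) := by ring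
          rw [this]; exact norm_sub_le _ _
        exact (min_le_right _ _).trans (by linarith)
    · push Not at h
      exact ⟨δ / 2, by positivity, h⟩
  obtain ⟨η₁, hη₁, hη₁'⟩ := key y₀ (fun g => (hy₀ g).1)
  obtain ⟨η₂, hη₂, hη₂'⟩ := key (y₀ - q₀) (fun g h => (hy₀ g).2 (by linear_combination h))
  obtain ⟨η, hη, hη1, hη2⟩ : ∃ η > 0, 2 * η ≤ η₁ ∧ 2 * η ≤ η₂ :=
    ⟨min η₁ η₂ / 2, by positivity, by linarith [min_le_left η₁ η₂], by linarith [min_le_right η₁ η₂]⟩
  obtain ⟨Kc, hKc, hKc'⟩ := hB.cpt η hη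
  -- compact set of good points
  have hclosed : IsClosed {u : U | ∀ g, η ≤ ‖D u - tau g‖} := by
    simp only [Set.ofPred_forall]
    exact isClosed_iInter fun g => isClosed_le continuous_const (hB.cont.sub continuous_const).norm
  have hK : IsCompact (Kc ∩ {u : U | ∀ g, η ≤ ‖D u - tau g‖}) := hKc.inter_right hclosed
  -- uniform radius
  have hunif : ∃ r > 0, ∀ u ∈ Kc ∩ {u : U | ∀ g, η ≤ ‖D u - tau g‖},
      ∃ s : ℂ → U, ContinuousOn s (Metric.ball (D u) r) ∧
        (∀ y ∈ Metric.ball (D u) r, D (s y) = y) ∧ s (D u) = u := by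
    refine hK.induction_on (p := fun A => ∃ r > 0, ∀ u ∈ A,
      ∃ s : ℂ → U, ContinuousOn s (Metric.ball (D u) r) ∧
        (∀ y ∈ Metric.ball (D u) r, D (s y) = y) ∧ s (D u) = u) ?_ ?_ ?_ ?_
    · exact ⟨1, one_pos, fun u hu => hu.elim⟩
    · rintro A B hAB ⟨r, hr, h⟩
      exact ⟨r, hr, fun u hu => h u (hAB hu)⟩
    · rintro A B ⟨r, hr, h⟩ ⟨r', hr', h'⟩
      refine ⟨min r r', lt_min hr hr', ?_⟩
      rintro u (hu | hu)
      · obtain ⟨s, h1, h2, h3⟩ := h u hu
        have hsub : Metric.ball (D u) (min r r') ⊆ Metric.ball (D u) r :=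
          Metric.ball_subset_ball (min_le_left _ _)
        exact ⟨s, h1.mono hsub, fun y hy => h2 y (hsub hy), h3⟩
      · obtain ⟨s, h1, h2, h3⟩ := h' u hu
        have hsub : Metric.ball (D u) (min r r') ⊆ Metric.ball (D u) r' :=
          Metric.ball_subset_ball (min_le_right _ _)
        exact ⟨s, h1.mono hsub, fun y hy => h2 y (hsub hy), h3⟩
    · intro u hu
      have hnc : ∀ g : G, u ≠ g • C₀ := by
        intro g hg
        have h1 := hu.2 g
        rw [hg, D_cone, sub_self, norm_zero] at h1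
        linarith
      obtain ⟨e, he, heD⟩ := hB.loc u hnc
      have hmem : D u ∈ e.target := by rw [← heD u he]; exact e.map_source he
      obtain ⟨r, hr, hball⟩ := Metric.isOpen_iff.1 e.open_target (D u) hmem
      refine ⟨e.source ∩ D ⁻¹' Metric.ball (D u) (r / 2), ?_, r / 2, by positivity, ?_⟩
      · apply mem_nhdsWithin_of_mem_nhds
        refine (e.open_source.inter (Metric.isOpen_ball.preimage hB.cont)).mem_nhds ⟨he, ?_⟩
        exact Metric.mem_ball_self (by positivity)
      · rintro v ⟨hv1, hv2⟩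
        have hv2' : D v ∈ Metric.ball (D u) (r / 2) := hv2
        have hsub : Metric.ball (D v) (r / 2) ⊆ e.target := by
          refine Set.Subset.trans ?_ hball
          intro y hy
          rw [Metric.mem_ball] at *
          calc dist y (D u) ≤ dist y (D v) + dist (D v) (D u) := dist_triangle _ _ _
            _ < r / 2 + r / 2 := add_lt_add hy hv2'
            _ = r := by ring
        refine ⟨e.symm, e.continuousOn_symm.mono hsub, ?_, ?_⟩
        · intro y hy
          rw [← heD _ (e.map_target (hsub hy)), e.right_inv (hsub hy)]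
        · rw [← heD v hv1, e.left_inv hv1]
  obtain ⟨r, hr, hsec⟩ := hunif
  -- sections at all points over the ball
  have hρ : 0 < min η (r / 2) := lt_min hη (by positivity)
  refine evenly hB.cont hρ ?_ ?_
  · intro u hu
    apply hB.loc u
    intro g hg
    rw [hg, D_cone, Metric.mem_ball, dist_comm, dist_eq_norm] at hu
    have h1 := hη₁' g
    have h2 := min_le_left η (r / 2)
    linarith
  · intro u hu
    rw [Metric.mem_ball, dist_eq_norm] at hu
    have hu1 : ‖D u - y₀‖ < η := hu.trans_le (min_le_left _ _)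
    have hu2 : ‖D u - y₀‖ < r / 2 := hu.trans_le (min_le_right _ _)
    have h1 : ∀ g, η ≤ ‖D u - (q₀ + tau g)‖ := by
      intro g
      have h2 := hη₂' g
      have h3 : ‖y₀ - q₀ - tau g‖ ≤ ‖D u - (q₀ + tau g)‖ + ‖D u - y₀‖ := by
        have : y₀ - q₀ - tau g = (D u - (q₀ + tau g)) - (D u - y₀) := by ring
        rw [this]; exact norm_sub_le _ _
      linarith
    have h2 : ∀ g, η ≤ ‖D u - tau g‖ := by
      intro g
      have h2 := hη₁' g
      have h3 : ‖y₀ - tau g‖ ≤ ‖D u - tau g‖ + ‖D u - y₀‖ := by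
        have : y₀ - tau g = (D u - tau g) - (D u - y₀) := by ring
        rw [this]; exact norm_sub_le _ _
      linarith
    obtain ⟨g, hg⟩ := hKc' u h1
    have h4 : ∀ g', η ≤ ‖D (g • u) - tau g'‖ := by
      intro g'
      have := h2 (g⁻¹ * g')
      rw [hB.tau_mul, tau_inv] at this
      rw [hB.equiv]
      have h5 : D u + tau g - tau g' = D u - (-tau g + tau g') := by ring
      rw [h5]; exact this
    obtain ⟨s, hs1, hs2, hs3⟩ := hsec (g • u) ⟨hg, h4⟩
    have hmaps : ∀ y ∈ Metric.ball y₀ (min η (r / 2)), y + tau g ∈ Metric.ball (D (g • u)) r := by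
      intro y hy
      rw [Metric.mem_ball, dist_eq_norm] at *
      rw [hB.equiv]
      have h6 : y + tau g - (D u + tau g) = (y - y₀) - (D u - y₀) := by ring
      rw [h6]
      have h7 := norm_sub_le (y - y₀) (D u - y₀)
      have h8 := min_le_right η (r / 2)
      linarith
    refine ⟨fun y => g⁻¹ • s (y + tau g), ?_, ?_, ?_⟩
    · refine (hact g⁻¹).comp_continuousOn ?_
      exact hs1.comp (continuous_id.add continuous_const).continuousOn hmaps
    · intro y hy
      rw [hB.equiv, hs2 _ (hmaps y hy), tau_inv]; ring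
    · change g⁻¹ • s (D u + tau g) = u
      rw [← hB.equiv, hs3, inv_smul_smul]

end Pool.Agent.CircleShift
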