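import Pool.Agent.Work.MP_0fc146_gt_h31.Interface

/-!
# Block XSurf: the hyperbolic octagon as a marked surface
-/

noncomputable section

open scoped Topology ENNReal UpperHalfPlane Manifold ContDiff ComplexConjugate
open Filter

namespace Pool.Agent.CircleShift

namespace XSurfAux

/-! ### The lemma of Schwarz and Pick -/

theorem norm_sub_le_conj {z P : ℂ} (hz : 0 < z.im) (hP : 0 < P.im) :
    ‖z - P‖ ≤ ‖z - conj P‖ := by
  rw [← sq_le_sq₀ (norm_nonneg _) (norm_nonneg _), Complex.sq_norm, Complex.sq_norm]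
  simp only [Complex.normSq_apply, Complex.sub_re, Complex.sub_im, Complex.conj_re,
    Complex.conj_im]
  nlinarith [mul_pos hz hP]

theorem sub_conj_ne {z P : ℂ} (hz : 0 < z.im) (hP : 0 < P.im) : z - conj P ≠ 0 := by
  intro h
  have := congrArg Complex.im h
  simp only [Complex.sub_im, Complex.conj_im, Complex.zero_im] at this
  linarith

/-- The inverse Cayley map. -/
def psi (p w : ℂ) : ℂ := (p - w * conj p) / (1 - w)

theorem psi_im {p w : ℂ} (hp : 0 < p.im) (hw : ‖w‖ < 1) : 0 < (psi p w).im := by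
  have h1 : 1 - w ≠ 0 := by
    intro h
    have h2 : w = 1 := by linear_combination -h
    rw [h2] at hw
    simp at hw
  have h2 : psi p w = ((p - w * conj p) * conj (1 - w)) / (Complex.normSq (1 - w) : ℂ) := by
    unfold psi
    rw [div_eq_div_iff h1 (by exact_mod_cast (Complex.normSq_pos.2 h1).ne'),
      mul_assoc, mul_comm (conj (1 - w)), Complex.mul_conj]
  have h3 : ((p - w * conj p) * conj (1 - w)).im = p.im * (1 - ‖w‖ ^ 2) := by
    rw [Complex.sq_norm, Complex.normSq_apply]
    simp only [Complex.mul_im, Complex.sub_re, Complex.sub_im, Complex.mul_re, Complex.conj_re,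
      Complex.conj_im, Complex.one_re, Complex.one_im]
    ring
  rw [h2, Complex.div_ofReal_im, h3]
  have h4 : 0 < 1 - ‖w‖ ^ 2 := by
    have := norm_nonneg w
    nlinarith
  have h5 := Complex.normSq_pos.2 h1
  positivity

theorem psi_cayley {p q : ℂ} (hp : 0 < p.im) (hq : 0 < q.im) :
    psi p ((q - p) / (q - conj p)) = q := by
  have h1 := sub_conj_ne hq hp
  have h2 := sub_conj_ne hp hp
  unfold psi
  have h3 : 1 - (q - p) / (q - conj p) = (p - conj p) / (q - conj p) := by
    rw [one_sub_div h1]; congr 1; ring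
  have h4 : p - (q - p) / (q - conj p) * conj p = q * (p - conj p) / (q - conj p) := by
    field_simp; ring
  rw [h3, h4, div_div_div_cancel_right₀ h1, mul_div_assoc, div_self h2, mul_one]

theorem tanh_mono_le {x y : ℝ} (h : Real.tanh x ≤ Real.tanh y) : x ≤ y := by
  have h1 := Real.artanh_le_artanh (Real.neg_one_lt_tanh x) (Real.tanh_lt_one y) h
  rwa [Real.artanh_tanh, Real.artanh_tanh] at h1

/-- The lemma of Schwarz and Pick. -/
theorem schwarz_pick {f : ℍ → ℍ} (hf : ContMDiff 𝓘(ℂ) 𝓘(ℂ) ω f) (p q : ℍ) :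
    dist (f q) (f p) ≤ dist q p := by
  set F : ℂ → ℂ := fun z => (f (UpperHalfPlane.ofComplex z) : ℂ) with hF
  have hFd : DifferentiableOn ℂ F {z | 0 < z.im} := by
    have h1 : ContMDiff 𝓘(ℂ) 𝓘(ℂ) ω (fun z : ℍ => (f z : ℂ)) :=
      UpperHalfPlane.contMDiff_coe.comp hf
    exact UpperHalfPlane.mdifferentiable_iff.1 (h1.mdifferentiable (by simp))
  have hFp : ∀ z : ℍ, F z = f z := fun z => by simp only [hF, UpperHalfPlane.ofComplex_apply]
  have hFim : ∀ z : ℂ, 0 < (F z).im := fun z => (f _).im_pos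
  have hopen : IsOpen {z : ℂ | 0 < z.im} := isOpen_lt continuous_const Complex.continuous_im
  set P : ℂ := ((f p : ℍ) : ℂ) with hP
  have hPim : 0 < P.im := (f p).im_pos
  set g : ℂ → ℂ := fun w => (F (psi p w) - P) / (F (psi p w) - conj P) with hg
  have hpsi : ∀ w ∈ Metric.ball (0 : ℂ) 1, 0 < (psi p w).im := fun w hw =>
    psi_im p.im_pos (by simpa using hw)
  have hgd : DifferentiableOn ℂ g (Metric.ball 0 1) := by
    have h1 : DifferentiableOn ℂ (psi p) (Metric.ball 0 1) := by
      unfold psi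
      refine DifferentiableOn.div (by fun_prop) (by fun_prop) ?_
      intro w hw h
      have h2 : w = 1 := by linear_combination -h
      rw [h2] at hw
      simp at hw
    have h2 : DifferentiableOn ℂ (fun w => F (psi p w)) (Metric.ball 0 1) :=
      hFd.comp h1 (fun w hw => hpsi w hw)
    exact (h2.sub_const P).div (h2.sub_const (conj P)) fun w _ => sub_conj_ne (hFim _) hPim
  have hmaps : Set.MapsTo g (Metric.ball 0 1) (Metric.closedBall 0 1) := by
    intro w _
    rw [mem_closedBall_zero_iff]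
    simp only [hg]
    rw [norm_div]
    exact div_le_one_of_le₀ (norm_sub_le_conj (hFim _) hPim) (norm_nonneg _)
  have hg0 : g 0 = 0 := by
    simp only [hg]
    have : psi p 0 = p := by simp [psi]
    rw [this, hFp, hP, sub_self, zero_div]
  have hlt : ‖((q : ℂ) - p) / ((q : ℂ) - conj (p : ℂ))‖ < 1 := by
    rw [norm_div, div_lt_one (norm_pos_iff.2 (sub_conj_ne q.im_pos p.im_pos)),
      ← sq_lt_sq₀ (norm_nonneg _) (norm_nonneg _), Complex.sq_norm, Complex.sq_norm]
    have h1 := q.im_pos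
    have h2 := p.im_pos
    have h3 : (q : ℂ).im = q.im := rfl
    have h4 : (p : ℂ).im = p.im := rfl
    simp only [Complex.normSq_apply, Complex.sub_re, Complex.sub_im, Complex.conj_re,
      Complex.conj_im, h3, h4]
    nlinarith [mul_pos h1 h2]
  have key := Complex.norm_le_norm_of_mapsTo_ball hgd hmaps hg0 hlt
  simp only [hg] at key
  rw [psi_cayley p.im_pos q.im_pos, hFp, norm_div, norm_div, ← dist_eq_norm, ← dist_eq_norm,
    ← dist_eq_norm, ← dist_eq_norm, hP, ← UpperHalfPlane.tanh_half_dist,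
    ← UpperHalfPlane.tanh_half_dist] at key
  have := tanh_mono_le key
  linarith

/-! ### The surface -/

theorem xrep_chat : (xrep chat).val = !![-1, -18; 0, -1] := by
  unfold xrep chat
  rw [FreeGroup.lift_mk]
  decide +kernel

theorem contMDiff_act (g : G) : ContMDiff 𝓘(ℂ) 𝓘(ℂ) ω (fun z : ℍ => g • z) := by
  have h1 : (fun z : ℍ => g • z) =
      fun z : ℍ => (Matrix.SpecialLinearGroup.mapGL ℝ (xrep g) : GL (Fin 2) ℝ) • z := rfl
  rw [h1]
  apply UpperHalfPlane.contMDiff_smul
  simp

/-- The cusp. -/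
def jmap (z : ℍ) : ℍ := ⟨18 * (z : ℂ), by
  have := z.im_pos
  have h2 : (z : ℂ).im = z.im := rfl
  simp only [Complex.mul_im, Complex.re_ofNat, Complex.im_ofNat, zero_mul, add_zero, h2]
  positivity⟩

theorem contMDiff_jmap : ContMDiff 𝓘(ℂ) 𝓘(ℂ) ω jmap := by
  intro z
  have h1 : jmap = UpperHalfPlane.ofComplex ∘ ((fun w : ℂ => 18 * w) ∘ ((↑) : ℍ → ℂ)) := by
    funext z
    have h2 : UpperHalfPlane.ofComplex ((jmap z : ℍ) : ℂ) = jmap z :=
      UpperHalfPlane.ofComplex_apply _
    exact h2.symm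
  rw [h1]
  refine ContMDiffAt.comp z (I' := 𝓘(ℂ)) ?_ ?_
  · exact UpperHalfPlane.contMDiffAt_ofComplex (jmap z).im_pos
  · refine ContMDiff.contMDiffAt ?_
    refine ContMDiff.comp (I' := 𝓘(ℂ)) (ContDiff.contMDiff ?_) UpperHalfPlane.contMDiff_coe
    fun_prop

theorem jmap_vadd (z : ℍ) : jmap ((1 : ℝ) +ᵥ z) = chat • jmap z := by
  have h1 : chat • jmap z = xrep chat • jmap z := rfl
  rw [h1]
  apply UpperHalfPlane.ext
  rw [UpperHalfPlane.coe_specialLinearGroup_apply]
  have h2 : ∀ i j, xrep chat i j = (!![-1, -18; 0, -1] : Matrix (Fin 2) (Fin 2) ℤ) i j :=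
    fun i j => by rw [← xrep_chat]
  rw [h2, h2, h2, h2]
  change 18 * (((1 : ℝ) +ᵥ z : ℍ) : ℂ) = _
  rw [UpperHalfPlane.coe_vadd]
  simp [jmap]
  ring

/-- The action with the marking changed by `χ`. -/
@[reducible] def reAct (U : Type) [MulAction G U] (χ : MulAut G) : MulAction G U where
  smul := fun g u => χ g • u
  one_smul := fun u => by
    change χ 1 • u = u
    rw [map_one, one_smul]
  mul_smul := fun g h u => by
    change χ (g * h) • u = χ g • χ h • u
    rw [map_mul, mul_smul]

end XSurfAux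

open XSurfAux in
theorem stmt_XSurf (hTree : Stmt_Tree) (hAct : Stmt_Act) : Stmt_XSurf := by
  obtain ⟨pt, hT⟩ := hTree
  obtain ⟨hcont, hfree, hpd⟩ := hAct ℍ pt hT
  set χ : MulAut G := psiAut⁻¹ * thA with hχ
  have hχc : χ c = chat := by
    rw [hχ, MulAut.mul_apply, ← psiAut_chat]
    exact MulAut.inv_apply_self G psiAut chat
  let X : MarkedSurface :=
    { U := ℍ
      act := reAct ℍ χ
      pd := @ProperlyDiscontinuousSMul.mk G ℍ _ (reAct ℍ χ).toSMul (by
        intro K L hK hL
        exact (hpd.finite_disjoint_inter_image hK hL).preimage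
          (f := χ) (χ.injective.injOn))
      free := fun g u h => by
        have h1 : χ g = 1 := hfree (χ g) u h
        exact (map_eq_one_iff χ χ.injective).1 h1
      holo := fun g => contMDiff_act (χ g)
      cusp := ⟨jmap, contMDiff_jmap, fun z => by
        change jmap ((1 : ℝ) +ᵥ z) = χ c • jmap z
        rw [hχc]
        exact jmap_vadd z⟩ }
  refine ⟨X, fun g => ?_⟩
  have hg : psiAut⁻¹ (thA g) = χ g := rfl
  rw [hg]
  have hbdd : BddBelow (Set.range (fun z : ℍ => dist z (χ g • z))) :=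
    ⟨0, by rintro _ ⟨z, rfl⟩; exact dist_nonneg⟩
  apply le_antisymm
  · have h1 : ∀ z : ℍ, X.hypLen g ≤ ENNReal.ofReal (dist z (χ g • z)) := fun z =>
      iInf_le_of_le id (iInf_le_of_le contMDiff_id (iInf_le_of_le z (iInf_le_of_le (χ g • z)
        (iInf_le_of_le rfl le_rfl))))
    have h2 : X.hypLen g ≠ ⊤ := ne_top_of_le_ne_top ENNReal.ofReal_ne_top (h1 UpperHalfPlane.I)
    rw [← ENNReal.ofReal_toReal h2]
    apply ENNReal.ofReal_le_ofReal
    refine le_ciInf fun z => ?_
    exact ENNReal.toReal_le_of_le_ofReal dist_nonneg (h1 z)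
  · refine le_iInf fun f => le_iInf fun hf => le_iInf fun p => le_iInf fun q => le_iInf fun hq => ?_
    apply ENNReal.ofReal_le_ofReal
    have h1 : xlen (χ g) ≤ dist (f p) (χ g • f p) := ciInf_le hbdd (f p)
    have h2 : f q = χ g • f p := hq
    rw [← h2] at h1
    have h3 := schwarz_pick hf p q
    rw [dist_comm, dist_comm q p] at h3
    exact h1.trans h3

end Pool.Agent.CircleShift
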